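import Pool.Agent.Run7.h491.Und.Rig

/-!
# Approximation by functions of finitely many digits; a weak decay lemma
-/

set_option autoImplicit false

open MeasureTheory Filter Topology
open scoped ENNReal symmDiff

namespace Run7.h491.Und

/-! ### negatively correlated bounded functions tend weakly to zero -/

section decay

variable {Om : Type} [MeasurableSpace Om] {lam : Measure Om} [IsProbabilityMeasure lam]

lemma int_bd {F : Om → ℝ} (hF : Measurable F) {C : ℝ} (hC : ∀ y, |F y| ≤ C) :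
    Integrable F lam :=
  Integrable.of_bound hF.aestronglyMeasurable C (Eventually.of_forall hC)

lemma card_bound {u : ℕ → Om → ℝ} (hu : ∀ n, Measurable (u n)) (hb : ∀ n y, |u n y| ≤ 1)
    (hneg : ∀ n m, n ≠ m → ∫ y, u n y * u m y ∂lam ≤ 0)
    {h : Om → ℝ} (hh : Measurable h) (hhb : ∀ y, |h y| ≤ 1) {δ : ℝ} (hδ : 0 < δ)
    (s : Finset ℕ) (hs : ∀ n ∈ s, δ ≤ ∫ y, u n y * h y ∂lam) : δ ^ 2 * s.card ≤ 1 := by
  classical
  have hmul : ∀ a b : ℝ, |a| ≤ 1 → |b| ≤ 1 → |a * b| ≤ 1 := fun a b => abs_mul_le_one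
  have i1 : Integrable (fun y => h y * h y) lam :=
    int_bd (hh.mul hh) (C := 1) fun y => hmul _ _ (hhb y) (hhb y)
  have i2 : ∀ n, Integrable (fun y => u n y * h y) lam := fun n =>
    int_bd ((hu n).mul hh) (C := 1) fun y => hmul _ _ (hb n y) (hhb y)
  have i3 : ∀ n m, Integrable (fun y => u n y * u m y) lam := fun n m =>
    int_bd ((hu n).mul (hu m)) (C := 1) fun y => hmul _ _ (hb n y) (hb m y)
  have hsq : ∀ y, (h y - δ * ∑ n ∈ s, u n y) ^ 2 = h y * h y - 2 * δ * ∑ n ∈ s, u n y * h y +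
      δ ^ 2 * ∑ n ∈ s, ∑ m ∈ s, u n y * u m y := by
    intro y
    rw [← Finset.sum_mul_sum, ← Finset.sum_mul]
    ring
  have h0 : 0 ≤ ∫ y, (h y - δ * ∑ n ∈ s, u n y) ^ 2 ∂lam :=
    integral_nonneg fun y => sq_nonneg _
  simp only [hsq] at h0
  have i4 : Integrable (fun y => 2 * δ * ∑ n ∈ s, u n y * h y) lam :=
    (integrable_finsetSum _ fun n _ => i2 n).const_mul _
  have i5 : Integrable (fun y => δ ^ 2 * ∑ n ∈ s, ∑ m ∈ s, u n y * u m y) lam :=
    (integrable_finsetSum _ fun n _ => integrable_finsetSum _ fun m _ => i3 n m).const_mul _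
  rw [integral_add (f := fun y => h y * h y - 2 * δ * ∑ n ∈ s, u n y * h y) (i1.sub i4) i5,
    integral_sub i1 i4, integral_const_mul, integral_const_mul,
    integral_finsetSum _ (fun n _ => i2 n),
    integral_finsetSum _ (fun n _ => integrable_finsetSum _ fun m _ => i3 n m)] at h0
  have e1 : ∫ y, h y * h y ∂lam ≤ 1 := by
    calc ∫ y, h y * h y ∂lam ≤ ∫ _y, (1 : ℝ) ∂lam :=
          integral_mono i1 (integrable_const _) fun y => (abs_le.1 (hmul _ _ (hhb y) (hhb y))).2
      _ = 1 := by simp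
  have e2 : (s.card : ℝ) * δ ≤ ∑ n ∈ s, ∫ y, u n y * h y ∂lam := by
    rw [← nsmul_eq_mul, ← Finset.sum_const]
    exact Finset.sum_le_sum hs
  have e3 : ∑ n ∈ s, ∫ y, ∑ m ∈ s, u n y * u m y ∂lam ≤ s.card := by
    calc ∑ n ∈ s, ∫ y, ∑ m ∈ s, u n y * u m y ∂lam ≤ ∑ _n ∈ s, (1 : ℝ) := by
          refine Finset.sum_le_sum fun n hn => ?_
          rw [integral_finsetSum _ (fun m _ => i3 n m), ← Finset.add_sum_erase s _ hn]
          have e4 : ∫ y, u n y * u n y ∂lam ≤ 1 := by
            calc ∫ y, u n y * u n y ∂lam ≤ ∫ _y, (1 : ℝ) ∂lam :=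
                  integral_mono (i3 n n) (integrable_const _)
                    fun y => (abs_le.1 (hmul _ _ (hb n y) (hb n y))).2
              _ = 1 := by simp
          have e5 : ∑ m ∈ s.erase n, ∫ y, u n y * u m y ∂lam ≤ 0 :=
            Finset.sum_nonpos fun m hm => hneg n m (Finset.ne_of_mem_erase hm).symm
          linarith
      _ = s.card := by simp
  nlinarith [mul_le_mul_of_nonneg_left e2 hδ.le, mul_le_mul_of_nonneg_left e3 (sq_nonneg δ)]

lemma fin_ge {u : ℕ → Om → ℝ} (hu : ∀ n, Measurable (u n)) (hb : ∀ n y, |u n y| ≤ 1)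
    (hneg : ∀ n m, n ≠ m → ∫ y, u n y * u m y ∂lam ≤ 0)
    {h : Om → ℝ} (hh : Measurable h) (hhb : ∀ y, |h y| ≤ 1) {δ : ℝ} (hδ : 0 < δ) :
    {n : ℕ | δ ≤ ∫ y, u n y * h y ∂lam}.Finite := by
  by_contra hinf
  obtain ⟨k, hk⟩ := exists_nat_gt (1 / δ ^ 2)
  obtain ⟨s, hs, hcard⟩ := Set.Infinite.exists_subset_card_eq hinf k
  have h1 := card_bound hu hb hneg hh hhb hδ s (fun n hn => hs hn)
  rw [hcard] at h1
  rw [div_lt_iff₀ (by positivity)] at hk
  linarith

lemma decay {u : ℕ → Om → ℝ} (hu : ∀ n, Measurable (u n)) (hb : ∀ n y, |u n y| ≤ 1)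
    (hneg : ∀ n m, n ≠ m → ∫ y, u n y * u m y ∂lam ≤ 0)
    {h : Om → ℝ} (hh : Measurable h) (hhb : ∀ y, |h y| ≤ 1) :
    Tendsto (fun n => ∫ y, u n y * h y ∂lam) atTop (𝓝 0) := by
  rw [Metric.tendsto_atTop]
  intro ε hε
  have h1 := fin_ge hu hb hneg hh hhb hε
  have h2 := fin_ge hu hb hneg hh.neg (fun y => by rw [Pi.neg_apply, abs_neg]; exact hhb y) hε
  obtain ⟨M, hM⟩ := (h1.union h2).bddAbove
  refine ⟨M + 1, fun n hn => ?_⟩
  have h3 : n ∉ {n : ℕ | ε ≤ ∫ y, u n y * h y ∂lam} ∪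
      {n : ℕ | ε ≤ ∫ y, u n y * (-h) y ∂lam} := fun h4 => by
    have := hM h4
    omega
  simp only [Set.mem_union, Set.mem_ofPred_eq, not_or, not_le, Pi.neg_apply, mul_neg,
    integral_neg] at h3
  rw [Real.dist_eq, sub_zero, abs_lt]
  constructor <;> linarith [h3.1, h3.2]

end decay

/-! ### distances -/

/-- the `L¹`-distance, multiplied by six -/
noncomputable def D (h h' : X → Z → ℝ) : ℝ := ∫ x, ∑ g : Z, |h x g - h' x g| ∂mu

lemma Adm.measD {h h' : X → Z → ℝ} (ha : Adm h) (ha' : Adm h') :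
    Measurable fun x => ∑ g : Z, |h x g - h' x g| :=
  Finset.measurable_sum _ fun g _ => ((ha.meas g).sub (ha'.meas g)).abs

lemma Adm.intD {h h' : X → Z → ℝ} (ha : Adm h) (ha' : Adm h') :
    Integrable (fun x => ∑ g : Z, |h x g - h' x g|) mu := by
  refine Integrable.of_bound (C := 12) (ha.measD ha').aestronglyMeasurable
    (Eventually.of_forall fun x => ?_)
  rw [Real.norm_eq_abs, abs_of_nonneg (Finset.sum_nonneg fun g _ => abs_nonneg _)]
  calc ∑ g : Z, |h x g - h' x g| ≤ ∑ _g : Z, (2 : ℝ) := by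
        refine Finset.sum_le_sum fun g _ => ?_
        have := abs_sub (h x g) (h' x g)
        linarith [ha.bdd x g, ha'.bdd x g, this]
    _ = 12 := by rw [Finset.sum_const, card_Z]; norm_num

lemma D_shift {h h' : X → Z → ℝ} (ha : Adm h) (ha' : Adm h') (n : ℕ) :
    ∫ x, ∑ g : Z, |h (S^[n] x) (g + Phi n x) - h' (S^[n] x) (g + Phi n x)| ∂mu = D h h' := by
  have h1 : ∀ x : X, ∑ g : Z, |h (S^[n] x) (g + Phi n x) - h' (S^[n] x) (g + Phi n x)| =
      ∑ g : Z, |h (S^[n] x) g - h' (S^[n] x) g| := fun x =>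
    Fintype.sum_equiv (Equiv.addRight (Phi n x)) _ _ fun g => rfl
  simp only [h1]
  unfold D
  have h2 := (mp_S.iterate n)
  exact (integral_map (μ := mu) h2.measurable.aemeasurable
    (f := fun x => ∑ g : Z, |h x g - h' x g|)
    (ha.measD ha').aestronglyMeasurable).symm.trans (by rw [h2.map_eq])

lemma C_close {h h' : X → Z → ℝ} (ha : Adm h) (ha' : Adm h') (n : ℕ) :
    |C n h - C n h'| ≤ 2 * D h h' := by
  unfold C
  rw [← integral_sub (ha.intC ha n) (ha'.intC ha' n)]
  have hi1 : Integrable (fun x => ∑ g : Z,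
      |h (S^[n] x) (g + Phi n x) - h' (S^[n] x) (g + Phi n x)|) mu := by
    have h1 : (fun x => ∑ g : Z,
      |h (S^[n] x) (g + Phi n x) - h' (S^[n] x) (g + Phi n x)|) =
      fun x => ∑ g : Z, |h (S^[n] x) g - h' (S^[n] x) g| := by
      funext x
      exact Fintype.sum_equiv (Equiv.addRight (Phi n x)) _ _ fun g => rfl
    rw [h1]
    exact (mp_S.iterate n).integrable_comp_of_integrable (ha.intD ha')
  have hpt : ∀ x : X, |∑ g : Z, h (S^[n] x) (g + Phi n x) * h x g -
      ∑ g : Z, h' (S^[n] x) (g + Phi n x) * h' x g| ≤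
      ∑ g : Z, |h (S^[n] x) (g + Phi n x) - h' (S^[n] x) (g + Phi n x)| +
      ∑ g : Z, |h x g - h' x g| := by
    intro x
    rw [← Finset.sum_sub_distrib, ← Finset.sum_add_distrib]
    refine (Finset.abs_sum_le_sum_abs _ _).trans (Finset.sum_le_sum fun g _ => ?_)
    have e : h (S^[n] x) (g + Phi n x) * h x g - h' (S^[n] x) (g + Phi n x) * h' x g =
        (h (S^[n] x) (g + Phi n x) - h' (S^[n] x) (g + Phi n x)) * h x g +
        h' (S^[n] x) (g + Phi n x) * (h x g - h' x g) := by ring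
    rw [e]
    refine (abs_add_le _ _).trans ?_
    rw [abs_mul, abs_mul]
    gcongr
    · exact mul_le_of_le_one_right (abs_nonneg _) (ha.bdd x g)
    · exact mul_le_of_le_one_left (abs_nonneg _) (ha'.bdd _ _)
  calc |∫ x, (∑ g : Z, h (S^[n] x) (g + Phi n x) * h x g -
      ∑ g : Z, h' (S^[n] x) (g + Phi n x) * h' x g) ∂mu|
      ≤ ∫ x, |∑ g : Z, h (S^[n] x) (g + Phi n x) * h x g -
      ∑ g : Z, h' (S^[n] x) (g + Phi n x) * h' x g| ∂mu := abs_integral_le_integral_abs
    _ ≤ ∫ x, (∑ g : Z, |h (S^[n] x) (g + Phi n x) - h' (S^[n] x) (g + Phi n x)| +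
      ∑ g : Z, |h x g - h' x g|) ∂mu :=
        integral_mono ((ha.intC ha n).sub (ha'.intC ha' n)).abs (hi1.add (ha.intD ha')) hpt
    _ = 2 * D h h' := by
        rw [integral_add hi1 (ha.intD ha'), D_shift ha ha' n]
        unfold D
        ring

lemma N_eq_C (h : X → Z → ℝ) : N h = C 0 h := by
  simp [N, C]

lemma N_close {h h' : X → Z → ℝ} (ha : Adm h) (ha' : Adm h') :
    |N h - N h'| ≤ 2 * D h h' := by
  rw [N_eq_C, N_eq_C]
  exact C_close ha ha' 0

/-! ### averages over the translations of the fibre by multiples of `d` -/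

/-- the average over the translations by `0, d, ..., (q - 1) d` -/
noncomputable def avg (d q : ℕ) (h : X → Z → ℝ) : X → Z → ℝ := fun x g =>
  (1 / q : ℝ) * ∑ k ∈ Finset.range q, h x (g + d * k)

lemma avg_adm {d q : ℕ} (hq : 0 < q) {h : X → Z → ℝ} (ha : Adm h) : Adm (avg d q h) := by
  have hq' : (0 : ℝ) < q := by exact_mod_cast hq
  refine ⟨fun g => ?_, fun x g => ?_⟩
  · unfold avg
    exact (Finset.measurable_sum _ fun k _ => ha.meas _).const_mul _
  · unfold avg
    rw [abs_mul, abs_of_pos (by positivity)]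
    have h1 : |∑ k ∈ Finset.range q, h x (g + d * k)| ≤ q := by
      calc |∑ k ∈ Finset.range q, h x (g + d * k)|
          ≤ ∑ k ∈ Finset.range q, |h x (g + d * k)| := Finset.abs_sum_le_sum_abs _ _
        _ ≤ ∑ _k ∈ Finset.range q, (1 : ℝ) := Finset.sum_le_sum fun k _ => ha.bdd _ _
        _ = q := by simp
    rw [one_div, inv_mul_le_iff₀ hq']
    linarith

lemma avg_inv {d q : ℕ} (hdq : ((d * q : ℕ) : Z) = 0) (h : X → Z → ℝ) : Inv d (avg d q h) := by
  intro x g
  unfold avg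
  congr 1
  have h2 := Finset.sum_range_succ (fun k : ℕ => h x (g + d * k)) q
  have h3 := Finset.sum_range_succ' (fun k : ℕ => h x (g + d * k)) q
  rw [h2] at h3
  have h4 : g + (d : Z) * (q : Z) = g := by
    rw [← Nat.cast_mul, hdq, add_zero]
  rw [h4] at h3
  simp only [Nat.cast_zero, mul_zero, add_zero] at h3
  have h5 := add_right_cancel h3
  rw [h5]
  refine Finset.sum_congr rfl fun k _ => ?_
  congr 1
  push_cast
  ring

lemma avg_dep {d q R : ℕ} {h : X → Z → ℝ} (hD : ∀ g, Dep R fun x => h x g) (g : Z) :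
    Dep R fun x => avg d q h x g := by
  intro x y hxy
  unfold avg
  dsimp only
  congr 1
  exact Finset.sum_congr rfl fun k _ => hD _ x y hxy

lemma avg_D {d q : ℕ} (hq : 0 < q) {h h' : X → Z → ℝ} (ha : Adm h) (ha' : Adm h') :
    D (avg d q h) (avg d q h') ≤ D h h' := by
  unfold D
  refine integral_mono ((avg_adm hq ha).intD (avg_adm hq ha')) (ha.intD ha') fun x => ?_
  have hq' : (0 : ℝ) < q := by exact_mod_cast hq
  have h1 : ∀ g : Z, |avg d q h x g - avg d q h' x g| ≤
      (1 / q : ℝ) * ∑ k ∈ Finset.range q, |h x (g + d * k) - h' x (g + d * k)| := by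
    intro g
    unfold avg
    rw [← mul_sub, ← Finset.sum_sub_distrib, abs_mul, abs_of_pos (by positivity)]
    gcongr
    exact Finset.abs_sum_le_sum_abs _ _
  calc ∑ g : Z, |avg d q h x g - avg d q h' x g|
      ≤ ∑ g : Z, (1 / q : ℝ) * ∑ k ∈ Finset.range q, |h x (g + d * k) - h' x (g + d * k)| :=
        Finset.sum_le_sum fun g _ => h1 g
    _ = (1 / q : ℝ) * ∑ k ∈ Finset.range q, ∑ g : Z, |h x (g + d * k) - h' x (g + d * k)| := by
        rw [← Finset.mul_sum, Finset.sum_comm]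
    _ = (1 / q : ℝ) * ∑ _k ∈ Finset.range q, ∑ g : Z, |h x g - h' x g| := by
        congr 1
        refine Finset.sum_congr rfl fun k _ => ?_
        exact Fintype.sum_equiv (Equiv.addRight ((d : Z) * k)) _ _ fun g => rfl
    _ = ∑ g : Z, |h x g - h' x g| := by
        rw [Finset.sum_const, Finset.card_range, nsmul_eq_mul]
        field_simp

lemma C_avg {d q : ℕ} (hq : 0 < q) (hdq : ((d * q : ℕ) : Z) = 0) (h : X → Z → ℝ) (n : ℕ) :
    C n (avg d q h) = ∫ x, ∑ g : Z, h (S^[n] x) (g + Phi n x) * avg d q h x g ∂mu := by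
  unfold C
  congr 1
  funext x
  have hq' : (0 : ℝ) < q := by exact_mod_cast hq
  have hinv := avg_inv hdq h
  have h1 : ∀ g : Z, avg d q h (S^[n] x) (g + Phi n x) * avg d q h x g =
      (1 / q : ℝ) * ∑ k ∈ Finset.range q,
        h (S^[n] x) (g + d * k + Phi n x) * avg d q h x (g + d * k) := by
    intro g
    conv_lhs => unfold avg
    rw [mul_assoc, Finset.sum_mul]
    congr 1
    refine Finset.sum_congr rfl fun k _ => ?_
    rw [hinv.mul x g k]
    congr 2
    ring
  rw [Finset.sum_congr rfl fun g _ => h1 g, ← Finset.mul_sum, Finset.sum_comm]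
  have h2 : ∀ k ∈ Finset.range q, ∑ g : Z,
      h (S^[n] x) (g + d * k + Phi n x) * avg d q h x (g + d * k) =
      ∑ g : Z, h (S^[n] x) (g + Phi n x) * avg d q h x g := fun k _ =>
    Fintype.sum_equiv (Equiv.addRight ((d : Z) * k)) _ _ fun g => rfl
  rw [Finset.sum_congr rfl h2, Finset.sum_const, Finset.card_range, nsmul_eq_mul]
  field_simp

/-! ### approximation of sets -/

/-- the algebra of the sets which depend on finitely many digits -/
def Cy : Set (Set X) := {B | ∃ R : ℕ, Dep R fun x => x ∈ B}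

lemma Cy_alg : IsSetAlgebra Cy := by
  refine ⟨⟨0, fun x y _ => rfl⟩, ?_, ?_⟩
  · rintro B ⟨R, hR⟩
    refine ⟨R, fun x y hxy => ?_⟩
    have h1 : (x ∈ B) = (y ∈ B) := hR x y hxy
    simp only [Set.mem_compl_iff]
    rw [h1]
  · rintro B B' ⟨R, hR⟩ ⟨R', hR'⟩
    refine ⟨max R R', fun x y hxy => ?_⟩
    have h1 : (x ∈ B) = (y ∈ B) := hR x y fun k hk => hxy k (lt_of_lt_of_le hk (le_max_left _ _))
    have h2 : (x ∈ B') = (y ∈ B') :=
      hR' x y fun k hk => hxy k (lt_of_lt_of_le hk (le_max_right _ _))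
    simp only [Set.mem_union]
    rw [h1, h2]

lemma Cy_meas {B : Set X} (hB : B ∈ Cy) : MeasurableSet B := by
  obtain ⟨R, hR⟩ := hB
  exact measurableSet_setOfPred.2 hR.measurable

lemma Cy_gen : (MeasurableSpace.pi : MeasurableSpace X) = MeasurableSpace.generateFrom Cy := by
  refine le_antisymm ?_ (MeasurableSpace.generateFrom_le fun B hB => Cy_meas hB)
  refine iSup_le fun k => ?_
  rintro _ ⟨B, -, rfl⟩
  refine MeasurableSpace.measurableSet_generateFrom ⟨k + 1, fun x y hxy => ?_⟩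
  simp only [Set.mem_preimage]
  rw [hxy k (Nat.lt_succ_self k)]

lemma Cy_dense : mu.MeasureDense Cy :=
  Measure.MeasureDense.of_generateFrom_isSetAlgebra_finite mu Cy_alg Cy_gen

open Classical in
/-- the indicator function minus a constant -/
noncomputable def ind (A : Set (X × Z)) (a : ℝ) : X → Z → ℝ := fun x g =>
  (if (x, g) ∈ A then 1 else 0) - a

lemma slice_meas {A : Set (X × Z)} (hA : MeasurableSet A) (g : Z) :
    MeasurableSet {x : X | (x, g) ∈ A} :=
  (measurable_id.prodMk measurable_const) hA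

lemma ind_adm {A : Set (X × Z)} (hA : MeasurableSet A) {a : ℝ} (h0 : 0 ≤ a) (h1 : a ≤ 1) :
    Adm (ind A a) := by
  refine ⟨fun g => ?_, fun x g => ?_⟩
  · exact (Measurable.ite (slice_meas hA g) measurable_const measurable_const).sub_const _
  · unfold ind
    split_ifs <;> rw [abs_le] <;> constructor <;> linarith

lemma approx {A : Set (X × Z)} (hA : MeasurableSet A) {a : ℝ} (h0 : 0 ≤ a) (h1 : a ≤ 1)
    {ε : ℝ} (hε : 0 < ε) : ∃ (R : ℕ) (h : X → Z → ℝ), Adm h ∧ (∀ g, Dep R fun x => h x g) ∧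
      D (ind A a) h ≤ ε := by
  classical
  have h2 : ∀ g : Z, ∃ B ∈ Cy, mu ({x : X | (x, g) ∈ A} ∆ B) < ENNReal.ofReal (ε / 6) :=
    fun g => Cy_dense.approx _ (slice_meas hA g) (measure_ne_top _ _) _ (by positivity)
  choose B hB hB2 using h2
  have hB' := hB
  choose R hR using hB'
  set Q : Set (X × Z) := {p | p.1 ∈ B p.2} with hQ
  have hQm : MeasurableSet Q := by
    have : Q = ⋃ g : Z, (B g) ×ˢ {g} := by
      ext p
      simp [hQ]
    rw [this]
    exact MeasurableSet.iUnion fun g => (Cy_meas (hB g)).prod (MeasurableSet.of_discrete)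
  refine ⟨∑ g : Z, R g, ind Q a, ind_adm hQm h0 h1, ?_, ?_⟩
  · intro g x y hxy
    have h3 : (x ∈ B g) = (y ∈ B g) := hR g x y fun k hk => hxy k (lt_of_lt_of_le hk
      (Finset.single_le_sum (f := R) (fun _ _ => Nat.zero_le _) (Finset.mem_univ g)))
    have h4 : ((x, g) ∈ Q) = ((y, g) ∈ Q) := h3
    simp only [ind, h4]
  · have hpt : ∀ x g, |ind A a x g - ind Q a x g| =
        Set.indicator ({x : X | (x, g) ∈ A} ∆ B g) (fun _ => (1 : ℝ)) x := by
      intro x g
      simp only [ind, Set.indicator_apply, Set.mem_symmDiff, Set.mem_ofPred_eq]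
      have h5 : (x, g) ∈ Q ↔ x ∈ B g := Iff.rfl
      have h6 : -a - (1 - a) = -1 := by ring
      by_cases ha : (x, g) ∈ A <;> by_cases hb : x ∈ B g <;> simp [ha, hb, h5, h6]
    unfold D
    simp only [hpt]
    have hm : ∀ g : Z, MeasurableSet ({x : X | (x, g) ∈ A} ∆ B g) := fun g =>
      (slice_meas hA g).symmDiff (Cy_meas (hB g))
    rw [integral_finsetSum _ (fun g _ => (integrable_const (1 : ℝ)).indicator (hm g))]
    calc ∑ g : Z, ∫ x, Set.indicator ({x : X | (x, g) ∈ A} ∆ B g) (fun _ => (1 : ℝ)) x ∂mu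
        ≤ ∑ _g : Z, ε / 6 := by
          refine Finset.sum_le_sum fun g _ => ?_
          rw [integral_indicator_const _ (hm g), smul_eq_mul, mul_one]
          exact ENNReal.toReal_le_of_le_ofReal (by positivity) (hB2 g).le
      _ = ε := by
          rw [Finset.sum_const, card_Z]
          norm_num
          ring

end Run7.h491.Und
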