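import Pool.Agent.Run7.h491.Und.Mea

/-!
# The correlations of the faithful character vanish
-/

set_option autoImplicit false

open MeasureTheory Filter Topology

namespace Run7.h491.Und

/-- the standard character of `ZMod 6` -/
noncomputable def chi (a : Z) : ℂ := ZMod.stdAddChar a

lemma chi_add (a b : Z) : chi (a + b) = chi a * chi b := AddChar.map_add_eq_mul _ _ _
lemma chi_zero : chi 0 = 1 := AddChar.map_zero_eq_one _
lemma norm_chi (a : Z) : ‖chi a‖ = 1 := AddChar.norm_apply _ _

lemma sum_Z {M : Type} [AddCommMonoid M] (F : Z → M) :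
    ∑ j ∈ Finset.range 6, F (j : Z) = ∑ z : Z, F z := by
  rw [Finset.sum_range]
  refine Finset.sum_congr rfl fun i _ => ?_
  congr 1
  exact ZMod.natCast_zmod_val (n := 6) i

lemma sum_chi {c : Z} (hc : c ≠ 0) : ∑ z : Z, chi (c * z) = 0 := by
  have h := AddChar.sum_mulShift c (ZMod.isPrimitive_stdAddChar 6)
  rw [if_neg hc, Nat.cast_zero] at h
  rw [← h]
  refine Finset.sum_congr rfl fun z _ => ?_
  rw [chi, mul_comm]

lemma meas_chi (n : ℕ) (p : Z) : StronglyMeasurable fun x : X => chi (Phi n x + p * x 0) := by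
  have h1 : Measurable fun q : Z × Z => chi (q.1 + p * q.2) := measurable_of_countable _
  exact (h1.comp ((measurable_Phi n).prodMk (measurable_pi_apply 0))).stronglyMeasurable

/-- the correlations -/
noncomputable def G (n : ℕ) (p : Z) : ℂ := ∫ x, chi (Phi n x + p * x 0) ∂mu

lemma G_zero_n {p : Z} (hp : p ≠ 0) : G 0 p = 0 := by
  unfold G
  rw [int_cn (meas_chi 0 p) (C := 1) (fun x => (norm_chi _).le)]
  simp only [Phi_zero, zero_add, cn_zero, integral_const, probReal_univ, one_smul]
  rw [sum_Z (fun z => chi (p * z)), sum_chi hp, smul_zero]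

lemma G_step (n : ℕ) (p : Z) : G n p = (1 / 6 : ℝ) • ∑ j ∈ Finset.range 6,
    chi (p * j + ((n + j) / 6 : ℕ) * ((n + j) % 6 : ℕ)) *
      G ((n + j) / 6) (((n + j) % 6 : ℕ) - j) := by
  conv_lhs => unfold G
  rw [int_cn (meas_chi n p) (C := 1) (fun x => (norm_chi _).le)]
  congr 1
  refine Finset.sum_congr rfl fun j hj => ?_
  unfold G
  rw [← integral_const_mul]
  refine integral_congr_ae ?_
  filter_upwards [ae_Gd] with w hw
  obtain ⟨-, h2⟩ := key hw (Finset.mem_range.1 hj) n ((n + j) / 6) ((n + j) % 6)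
    (Nat.mod_lt _ (by norm_num)) (by omega)
  rw [h2, cn_zero, ← chi_add]
  congr 1
  ring

lemma small_ne {n : ℕ} (h1 : 1 ≤ n) (h2 : n < 6) : (n : Z) ≠ 0 := by
  interval_cases n <;> decide

lemma G_one (p : Z) : G 1 p = 0 := by
  have h : ∀ p : Z, G 1 p = (1 / 6 : ℝ) • (chi (p * 5) * G 1 1) := by
    intro p
    rw [G_step]
    congr 1
    rw [Finset.sum_range_succ, Finset.sum_eq_zero, zero_add]
    · have e : (0 : Z) - 5 = 1 := by decide
      simp [e]
    · intro j hj
      have hj' : j < 5 := Finset.mem_range.1 hj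
      have e1 : (1 + j) / 6 = 0 := by omega
      have e2 : (1 + j) % 6 = 1 + j := by omega
      rw [e1, e2]
      have e3 : ((1 + j : ℕ) : Z) - j = 1 := by push_cast; ring
      rw [e3, G_zero_n (by decide), mul_zero]
  have h1 : ‖G 1 1‖ = 0 := by
    have h2 := congrArg norm (h 1)
    rw [norm_smul, norm_mul, norm_chi, one_mul] at h2
    norm_num at h2
    have h3 := norm_nonneg (G 1 1)
    by_contra h4
    have h5 : 0 < ‖G 1 1‖ := lt_of_le_of_ne h3 (Ne.symm h4)
    nlinarith
  rw [h p, norm_eq_zero.1 h1, mul_zero, smul_zero]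

lemma G_eq_zero (n : ℕ) : 1 ≤ n → ∀ p : Z, G n p = 0 := by
  induction n using Nat.strong_induction_on with
  | _ n ih =>
    intro hn p
    rcases Nat.lt_or_ge n 2 with h | h
    · obtain rfl : n = 1 := by omega
      exact G_one p
    · rw [G_step, Finset.sum_eq_zero, smul_zero]
      intro j hj
      have hj' : j < 6 := Finset.mem_range.1 hj
      rcases Nat.eq_zero_or_pos ((n + j) / 6) with h0 | h0
      · have e2 : (n + j) % 6 = n + j := by omega
        rw [h0, e2]
        have e3 : ((n + j : ℕ) : Z) - j = n := by push_cast; ring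
        rw [e3, G_zero_n (small_ne hn (by omega)), mul_zero]
      · rw [ih _ (by omega) h0, mul_zero]

/-- The integrals of the cocycle of the powers against the faithful character. -/
lemma int_chi_Phi {n : ℕ} (hn : 1 ≤ n) : ∫ x, chi (Phi n x) ∂mu = 0 := by
  have h := G_eq_zero n hn 0
  simpa [G] using h

/-- the function with values in `[0, 1]` -/
noncomputable def ff (g : Z) : ℝ := 1 / 2 + (chi g).re / 2

lemma ff_nonneg (g : Z) : 0 ≤ ff g := by
  have h := Complex.abs_re_le_norm (chi g)
  rw [norm_chi, abs_le] at h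
  unfold ff
  linarith [h.1]

lemma ff_le_one (g : Z) : ff g ≤ 1 := by
  have h := Complex.abs_re_le_norm (chi g)
  rw [norm_chi, abs_le] at h
  unfold ff
  linarith [h.2]

lemma sum_re : ∑ g : Z, (chi g).re = 0 := by
  have h := sum_chi (c := 1) (by decide)
  simp only [one_mul] at h
  have h2 := congrArg Complex.re h
  simpa using h2

lemma sum_re_add (a : Z) : ∑ g : Z, (chi (g + a)).re = 0 := by
  rw [← sum_re]
  exact Fintype.sum_equiv (Equiv.addRight a) _ _ fun g => rfl

lemma conj_chi (a : Z) : (starRingEnd ℂ) (chi a) = chi (-a) := by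
  have h1 : chi a * chi (-a) = 1 := by rw [← chi_add, add_neg_cancel, chi_zero]
  have h2 : chi a * (starRingEnd ℂ) (chi a) = 1 := by
    rw [Complex.mul_conj, Complex.normSq_eq_norm_sq, norm_chi]
    norm_num
  have h3 : chi a ≠ 0 := by
    intro h
    rw [h, zero_mul] at h1
    exact zero_ne_one h1
  exact mul_left_cancel₀ h3 (h2.trans h1.symm)

lemma re_mul_re (a g : Z) : (chi (g + a)).re * (chi g).re =
    ((chi a).re + (chi (2 * g + a)).re) / 2 := by
  have h1 : chi (2 * g + a) = chi (g + a) * chi g := by rw [← chi_add]; congr 1; ring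
  have h2 : chi a = chi (g + a) * (starRingEnd ℂ) (chi g) := by
    rw [conj_chi, ← chi_add]; congr 1; ring
  rw [h1]
  conv_rhs => rw [h2]
  simp only [Complex.mul_re, Complex.conj_re, Complex.conj_im]
  ring

lemma sum_ff (a : Z) : ∑ g : Z, ff (g + a) * ff g = 3 / 2 + 3 / 4 * (chi a).re := by
  have h0 : ∑ g : Z, (chi (2 * g + a)).re = 0 := by
    have h := sum_chi (c := 2) (by decide)
    have h2 : ∑ g : Z, chi (2 * g + a) = 0 := by
      simp only [chi_add, ← Finset.sum_mul]
      rw [h, zero_mul]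
    have h3 := congrArg Complex.re h2
    simpa using h3
  have h1 : ∀ g : Z, ff (g + a) * ff g = 1 / 4 + (chi (g + a)).re / 4 + (chi g).re / 4 +
      ((chi a).re + (chi (2 * g + a)).re) / 8 := by
    intro g
    have := re_mul_re a g
    unfold ff
    linear_combination this / 4
  rw [Finset.sum_congr rfl fun g _ => h1 g]
  simp only [Finset.sum_add_distrib, ← Finset.sum_div, sum_re, sum_re_add, h0]
  simp only [Finset.sum_const, Finset.card_univ, ZMod.card, nsmul_eq_mul]
  push_cast
  ring

end Run7.h491.Und
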