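import Pool.Agent.Run7.h491.Und.Sys

/-!
# The under-recurrent function; ergodicity
-/

set_option autoImplicit false

open MeasureTheory Filter Topology
open scoped ENNReal symmDiff

namespace Run7.h491.Und

/-! ### the function -/

lemma ff_adm : Adm fun _ g => ff g :=
  ⟨fun _ => measurable_const, fun _ g => by
    rw [abs_le]
    constructor
    · linarith [ff_nonneg g]
    · exact ff_le_one g⟩

lemma sum_ff1 : ∑ g : Z, ff g = 3 := by
  unfold ff
  have h : ∑ g : Z, (chi g).re / 2 = (∑ g : Z, (chi g).re) / 2 := by rw [Finset.sum_div]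
  rw [Finset.sum_add_distrib, h, sum_re, Finset.sum_const, card_Z]
  norm_num

lemma int_f : ∫ y, ff y.2 ∂lam = 1 / 2 := by
  rw [int_lam (c := 1) (ff_adm.measY) (fun y => ff_adm.bdd y.1 y.2)]
  simp only [sum_ff1]
  simp
  norm_num

lemma int_re {n : ℕ} (hn : 1 ≤ n) : ∫ x, (chi (Phi n x)).re ∂mu = 0 := by
  have hI : Integrable (fun x : X => chi (Phi n x)) mu := by
    refine Integrable.of_bound (C := 1) ?_ (Eventually.of_forall fun x => (norm_chi _).le)
    exact ((measurable_of_countable chi).comp (measurable_Phi n)).aestronglyMeasurable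
  have h := congrArg Complex.re (int_chi_Phi hn)
  exact (integral_re hI).trans h

lemma cor_f (n : ℕ) : ∫ y, ff y.2 * ff (T^[n] y).2 ∂lam =
    1 / 4 + 1 / 8 * ∫ x, (chi (Phi n x)).re ∂mu := by
  have h1 : ∫ y, ff y.2 * ff (T^[n] y).2 ∂lam = ∫ y, ff (T^[n] y).2 * ff y.2 ∂lam := by
    congr 1
    funext y
    ring
  have hI : Integrable (fun x : X => (chi (Phi n x)).re) mu := by
    refine Integrable.of_bound (C := 1) ?_ (Eventually.of_forall fun x => ?_)
    · exact ((measurable_of_countable fun z : Z => (chi z).re).comp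
        (measurable_Phi n)).aestronglyMeasurable
    · rw [Real.norm_eq_abs]
      exact (Complex.abs_re_le_norm _).trans (norm_chi _).le
  rw [h1, cor ff_adm ff_adm n]
  simp only [sum_ff]
  rw [integral_add (integrable_const _) (hI.const_mul _), integral_const_mul]
  simp
  ring

lemma f_under {n : ℕ} (hn : 1 ≤ n) : ∫ y, ff y.2 * ff (T^[n] y).2 ∂lam = (∫ y, ff y.2 ∂lam) ^ 2 := by
  rw [cor_f, int_re hn, int_f]
  norm_num

lemma f_not_const : ¬ ∃ c : ℝ, (fun y : X × Z => ff y.2) =ᵐ[lam] fun _ => c := by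
  rintro ⟨c, hc⟩
  have h0 := cor_f 0
  simp only [Function.iterate_zero, id_eq, Phi_zero, chi_zero, Complex.one_re] at h0
  have h1 : ∫ y, ff y.2 ∂lam = c := by
    rw [integral_congr_ae hc]
    simp
  have h2 : ∫ y, ff y.2 * ff y.2 ∂lam = c * c := by
    have : (fun y : X × Z => ff y.2 * ff y.2) =ᵐ[lam] fun _ => c * c := by
      filter_upwards [hc] with y hy
      rw [hy]
    rw [integral_congr_ae this]
    simp
  rw [int_f] at h1
  rw [h2, ← h1] at h0
  simp at h0
  norm_num at h0

/-! ### ergodicity -/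

/-- the square of the norm of the fibre average, multiplied by six -/
noncomputable def Pq (h : X → Z → ℝ) : ℝ := ∫ x, (∑ g : Z, h x g) * (∑ g : Z, h x g) / 6 ∂mu

lemma Adm.measP {h : X → Z → ℝ} (ha : Adm h) :
    Measurable fun x => (∑ g : Z, h x g) * (∑ g : Z, h x g) / 6 :=
  (((Finset.measurable_sum _ fun g _ => ha.meas g).mul
    (Finset.measurable_sum _ fun g _ => ha.meas g)).div_const _)

lemma Adm.bddP {h : X → Z → ℝ} (ha : Adm h) (x : X) :
    ‖(∑ g : Z, h x g) * (∑ g : Z, h x g) / 6‖ ≤ 6 := by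
  rw [Real.norm_eq_abs, abs_div, abs_mul]
  have h1 := sum_bound _ fun g => ha.bdd x g
  have h2 := abs_nonneg (∑ g : Z, h x g)
  rw [abs_of_pos (show (0 : ℝ) < 6 by norm_num), div_le_iff₀ (by norm_num)]
  nlinarith

lemma Adm.intP {h : X → Z → ℝ} (ha : Adm h) :
    Integrable (fun x => (∑ g : Z, h x g) * (∑ g : Z, h x g) / 6) mu :=
  Integrable.of_bound ha.measP.aestronglyMeasurable 6 (Eventually.of_forall ha.bddP)

lemma Pq_step {h : X → Z → ℝ} (ha : Adm h) :
    Pq h = (1 / 6 : ℝ) * ∑ j ∈ Finset.range 6, Pq (fun x g => h (cn (j : Z) x) g) := by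
  unfold Pq
  rw [int_cn ha.measP.stronglyMeasurable ha.bddP, smul_eq_mul]

lemma inv_six (h : X → Z → ℝ) : Inv 6 h := by
  intro x g
  congr 1
  have : ((6 : ℕ) : Z) = 0 := by decide
  rw [this, add_zero]

lemma C_six_base {e : Z → ℝ} (hb : ∀ g, |e g| ≤ 1) :
    C 6 (fun _ g => e g) = Pq (fun _ g => e g) := by
  have ha : Adm (fun (_ : X) g => e g) := ⟨fun g => measurable_const, fun x g => hb g⟩
  have hP : Pq (fun _ g => e g) = (∑ g : Z, e g) * (∑ g : Z, e g) / 6 := by
    simp [Pq]
  rw [hP]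
  unfold C
  rw [int_cn (ha.measC ha _).stronglyMeasurable (ha.bddC ha _), smul_eq_mul]
  have h1 : ∀ j ∈ Finset.range 6, ∫ w, (∑ g : Z, e (g + Phi 6 (cn (j : Z) w)) * e g) ∂mu =
      ∫ w, (∑ g : Z, e (g + phi w + j) * e g) ∂mu := by
    intro j hj
    refine integral_congr_ae ?_
    filter_upwards [ae_Gd] with w hw
    obtain ⟨-, h2⟩ := key6 hw (Finset.mem_range.1 hj) 1
    refine Finset.sum_congr rfl fun g _ => ?_
    congr 1
    have h3 : Phi 6 (cn (j : Z) w) = Phi (6 * 1) (cn (j : Z) w) := rfl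
    have h7 : Phi 1 w = phi w := by
      rw [Phi_succ, Phi_zero]
      simp
    rw [h3, h2, h7]
    congr 1
    push_cast
    ring
  rw [Finset.sum_congr rfl h1, ← integral_finsetSum]
  · have h2 : ∀ w : X, ∑ j ∈ Finset.range 6, ∑ g : Z, e (g + phi w + j) * e g =
        (∑ g : Z, e g) * ∑ g : Z, e g := by
      intro w
      rw [Finset.sum_comm, Finset.mul_sum]
      refine Finset.sum_congr rfl fun g _ => ?_
      rw [← Finset.sum_mul, sum_Z (fun z : Z => e (g + phi w + z))]
      congr 1
      exact Fintype.sum_equiv (Equiv.addLeft (g + phi w)) _ _ fun g => rfl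
    simp only [h2]
    simp
    ring
  · intro i _
    refine Integrable.of_bound (C := 6) ?_ (Eventually.of_forall fun w => ?_)
    · refine Measurable.aestronglyMeasurable ?_
      exact (measurable_of_countable fun z : Z => ∑ g : Z, e (g + z + i) * e g).comp
        measurable_phi
    · rw [Real.norm_eq_abs]
      exact sum_bound _ fun g => abs_mul_le_one (hb _) (hb _)

lemma C_six (r : ℕ) : ∀ h : X → Z → ℝ, Adm h → (∀ g, Dep r fun x => h x g) →
    C (6 ^ (r + 1)) h = Pq h := by
  induction r with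
  | zero =>
    intro h ha hD
    have e : h = fun _ g => h (fun _ => 0) g := by
      funext x g
      exact hD g _ _ fun k hk => absurd hk (Nat.not_lt_zero k)
    rw [e]
    exact C_six_base (fun g => ha.bdd _ g)
  | succ r ih =>
    intro h ha hD
    have e : 6 ^ (r + 1 + 1) = 6 * 6 ^ (r + 1) := by ring
    rw [e, C_step (d := 6) (dvd_pow_self 6 (Nat.succ_ne_zero r)) ha (inv_six h), Pq_step ha]
    congr 1
    refine Finset.sum_congr rfl fun j _ => ?_
    refine ih _ (ha.cn j) fun g x y hxy => ?_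
    refine hD g _ _ fun k hk => ?_
    cases k with
    | zero => rfl
    | succ k => exact hxy k (by omega)

lemma Pq_close {h h' : X → Z → ℝ} (ha : Adm h) (ha' : Adm h') :
    |Pq h - Pq h'| ≤ 2 * D h h' := by
  unfold Pq
  rw [← integral_sub ha.intP ha'.intP]
  calc |∫ x, ((∑ g : Z, h x g) * (∑ g : Z, h x g) / 6 -
      (∑ g : Z, h' x g) * (∑ g : Z, h' x g) / 6) ∂mu|
      ≤ ∫ x, |(∑ g : Z, h x g) * (∑ g : Z, h x g) / 6 -
        (∑ g : Z, h' x g) * (∑ g : Z, h' x g) / 6| ∂mu := abs_integral_le_integral_abs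
    _ ≤ ∫ x, 2 * ∑ g : Z, |h x g - h' x g| ∂mu := by
        refine integral_mono (ha.intP.sub ha'.intP).abs ((ha.intD ha').const_mul _) fun x => ?_
        dsimp only
        have h1 := sum_bound _ fun g => ha.bdd x g
        have h2 := sum_bound _ fun g => ha'.bdd x g
        have h3 : |∑ g : Z, h x g - ∑ g : Z, h' x g| ≤ ∑ g : Z, |h x g - h' x g| := by
          rw [← Finset.sum_sub_distrib]
          exact Finset.abs_sum_le_sum_abs _ _
        have e : (∑ g : Z, h x g) * (∑ g : Z, h x g) / 6 -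
            (∑ g : Z, h' x g) * (∑ g : Z, h' x g) / 6 =
            (∑ g : Z, h x g - ∑ g : Z, h' x g) * ((∑ g : Z, h x g + ∑ g : Z, h' x g) / 6) := by
          ring
        rw [e, abs_mul]
        have h4 : |(∑ g : Z, h x g + ∑ g : Z, h' x g) / 6| ≤ 2 := by
          rw [abs_div, abs_of_pos (show (0 : ℝ) < 6 by norm_num), div_le_iff₀ (by norm_num)]
          exact (abs_add_le _ _).trans (by linarith)
        have h5 := abs_nonneg (∑ g : Z, h x g - ∑ g : Z, h' x g)
        nlinarith
    _ = 2 * D h h' := by rw [integral_const_mul]; rfl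

lemma ae_cn {p : X → Prop} (hp : ∀ᵐ x ∂mu, p x) {j : ℕ} (hj : j < 6) :
    ∀ᵐ w ∂mu, p (cn (j : Z) w) := by
  have h1 : mu.map (cn (j : Z)) ≪ mu := by
    refine Measure.AbsolutelyContinuous.mk fun B hB h0 => ?_
    rw [meas_cn hB, Finset.sum_eq_zero_iff] at h0
    have h2 := h0 j (Finset.mem_range.2 hj)
    rw [mul_eq_zero] at h2
    rw [Measure.map_apply (measurable_cn _) hB]
    exact h2.resolve_left (by norm_num)
  exact ae_of_ae_map (measurable_cn _).aemeasurable (h1.ae_le hp)

lemma int_bdX {F : X → ℝ} (hF : Measurable F) (hb : ∀ x, |F x| ≤ 1) : Integrable F mu :=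
  Integrable.of_bound hF.aestronglyMeasurable 1 (Eventually.of_forall hb)

lemma odo_indep (R : ℕ) : ∀ e h : X → ℝ, Measurable e → (∀ x, |e x| ≤ 1) →
    (∀ᵐ x ∂mu, e (S x) = e x) → (∀ x, |h x| ≤ 1) → Dep R h →
    ∫ x, e x * h x ∂mu = (∫ x, e x ∂mu) * ∫ x, h x ∂mu := by
  induction R with
  | zero =>
    intro e h he heb _ _ hD
    have e1 : h = fun _ => h (fun _ => 0) := by
      funext x
      exact hD _ _ fun k hk => absurd hk (Nat.not_lt_zero k)
    rw [e1, integral_mul_const]
    simp
  | succ R ih =>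
    intro e h he heb hinv hhb hD
    have hh : Measurable h := hD.measurable
    have s1 : ∀ j : ℕ, j < 6 → ∀ᵐ w ∂mu, e (cn (j : Z) w) = e (cn ((0 : ℕ) : Z) w) := by
      intro j
      induction j with
      | zero => intro _; exact Eventually.of_forall fun w => rfl
      | succ j ihj =>
        intro hj
        filter_upwards [ihj (by omega), ae_cn hinv (show j < 6 by omega)] with w h1 h2
        rw [← h1, ← h2]
        congr 1
        rw [S_cn_of_ne (cast_ne_five (by omega) (by omega))]
        push_cast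
        rfl
    have s2 : ∀ᵐ w ∂mu, e (cn ((0 : ℕ) : Z) (S w)) = e (cn ((0 : ℕ) : Z) w) := by
      filter_upwards [s1 5 (by norm_num), ae_cn hinv (show 5 < 6 by norm_num)] with w h1 h2
      rw [← h1, ← h2]
      congr 1
      have := S_cn_five w
      simpa using this.symm
    have m0 : ∀ j : ℕ, Measurable fun w => e (cn (j : Z) w) := fun j =>
      he.comp (measurable_cn _)
    have st1 := int_cn (F := fun x => e x * h x) (he.mul hh).stronglyMeasurable (C := 1)
      (fun x => by rw [Real.norm_eq_abs]; exact abs_mul_le_one (heb x) (hhb x))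
    have st2 := int_cn (F := e) he.stronglyMeasurable (C := 1)
      (fun x => by rw [Real.norm_eq_abs]; exact heb x)
    have st3 := int_cn (F := h) hh.stronglyMeasurable (C := 1)
      (fun x => by rw [Real.norm_eq_abs]; exact hhb x)
    have t1 : ∀ j ∈ Finset.range 6, ∫ w, e (cn (j : Z) w) * h (cn (j : Z) w) ∂mu =
        (∫ w, e (cn ((0 : ℕ) : Z) w) ∂mu) * ∫ w, h (cn (j : Z) w) ∂mu := by
      intro j hj
      rw [← ih _ (fun w => h (cn (j : Z) w)) (m0 0) (fun w => heb _) s2 (fun w => hhb _)]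
      · refine integral_congr_ae ?_
        filter_upwards [s1 j (Finset.mem_range.1 hj)] with w hw
        rw [hw]
      · intro x y hxy
        refine hD _ _ fun k hk => ?_
        cases k with
        | zero => rfl
        | succ k => exact hxy k (by omega)
    have t2 : ∀ j ∈ Finset.range 6, ∫ w, e (cn (j : Z) w) ∂mu =
        ∫ w, e (cn ((0 : ℕ) : Z) w) ∂mu := fun j hj =>
      integral_congr_ae (s1 j (Finset.mem_range.1 hj))
    rw [st1, Finset.sum_congr rfl t1, ← Finset.mul_sum, st2, Finset.sum_congr rfl t2, st3]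
    simp only [Finset.sum_const, Finset.card_range, smul_eq_mul, nsmul_eq_mul]
    push_cast
    ring

lemma N_eq_Pq {F : X → Z → ℝ} (hF : Adm F)
    (happ : ∀ ε > 0, ∃ (R : ℕ) (h : X → Z → ℝ), Adm h ∧ (∀ g, Dep R fun x => h x g) ∧ D F h ≤ ε)
    (hinv : ∀ x g, F (S x) (g + phi x) = F x g) : N F = Pq F := by
  have h1 : ∀ n x g, F (S^[n] x) (g + Phi n x) = F x g := by
    intro n
    induction n with
    | zero => intro x g; simp
    | succ n ih =>
      intro x g
      rw [Function.iterate_succ_apply', Phi_succ, ← add_assoc, hinv, ih]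
  have h2 : ∀ n, C n F = N F := by
    intro n
    unfold C N
    simp only [h1]
  refine eq_of_abs_sub_nonpos (le_of_forall_pos_le_add fun ε hε => ?_)
  obtain ⟨R, h, ha, hD, hd⟩ := happ (ε / 4) (by positivity)
  have h3 := C_close hF ha (6 ^ (R + 1))
  have h4 := Pq_close hF ha
  rw [h2, C_six R h ha hD] at h3
  have h5 : |N F - Pq F| ≤ |N F - Pq h| + |Pq F - Pq h| := by
    rw [abs_sub_comm (Pq F)]
    exact abs_sub_le _ _ _
  linarith

theorem ergodic_T : Ergodic T lam := by
  refine ⟨mp_T, ⟨fun A hA hinv => ?_⟩⟩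
  classical
  set F := ind A 0 with hFdef
  have hF : Adm F := ind_adm hA le_rfl zero_le_one
  have hval : ∀ x g, F x g = 0 ∨ F x g = 1 := by
    intro x g
    simp only [hFdef, ind]
    split_ifs <;> simp
  have hFi : ∀ x g, F (S x) (g + phi x) = F x g := by
    intro x g
    have h1 : (S x, g + phi x) ∈ A ↔ (x, g) ∈ A := by
      conv_rhs => rw [← hinv]
      rfl
    simp only [hFdef, ind, h1]
  have hNP := N_eq_Pq hF (fun ε hε => approx hA le_rfl zero_le_one hε) hFi
  -- the fibre average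
  have hpt : ∀ x : X, 0 ≤ (∑ g : Z, F x g * F x g) - (∑ g : Z, F x g) * (∑ g : Z, F x g) / 6 ∧
      ((∑ g : Z, F x g * F x g) - (∑ g : Z, F x g) * (∑ g : Z, F x g) / 6 = 0 →
        ∀ g, F x g = (∑ g : Z, F x g) / 6) := by
    intro x
    set s := ∑ g : Z, F x g with hs
    have e1 : (∑ g : Z, F x g * F x g) - s * s / 6 = ∑ g : Z, (F x g - s / 6) ^ 2 := by
      have e2 : ∀ g : Z, (F x g - s / 6) ^ 2 = F x g * F x g - s / 3 * F x g + s * s / 36 := by
        intro g; ring
      rw [Finset.sum_congr rfl fun g _ => e2 g, Finset.sum_add_distrib, Finset.sum_sub_distrib,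
        ← Finset.mul_sum, Finset.sum_const, card_Z, ← hs, nsmul_eq_mul]
      push_cast
      ring
    rw [e1]
    refine ⟨Finset.sum_nonneg fun g _ => sq_nonneg _, fun h0 g => ?_⟩
    have h3 := (Finset.sum_eq_zero_iff_of_nonneg (fun g _ => sq_nonneg _)).1 h0 g
      (Finset.mem_univ g)
    have h4 := pow_eq_zero_iff (two_ne_zero) |>.1 h3
    linarith
  have hae : ∀ᵐ x ∂mu, ∀ g, F x g = (∑ g : Z, F x g) / 6 := by
    have h1 : ∫ x, ((∑ g : Z, F x g * F x g) - (∑ g : Z, F x g) * (∑ g : Z, F x g) / 6) ∂mu =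
        0 := by
      rw [integral_sub (hF.intN hF) hF.intP]
      exact sub_eq_zero.2 hNP
    rw [integral_eq_zero_iff_of_nonneg (fun x => (hpt x).1) ((hF.intN hF).sub hF.intP)] at h1
    filter_upwards [h1] with x hx
    exact (hpt x).2 hx
  have hae0 : ∀ᵐ x ∂mu, ∀ g, F x g = F x 0 := by
    filter_upwards [hae] with x hx g
    rw [hx g, hx 0]
  have hSinv : ∀ᵐ x ∂mu, F (S x) 0 = F x 0 := by
    filter_upwards [mp_S.quasiMeasurePreserving.ae hae0] with x hx
    rw [← hx (0 + phi x), hFi]
  -- the measure is zero or one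
  set m := ∫ x, F x 0 ∂mu with hm
  have hlam : (lam A).toReal = m := by
    have h1 : (lam A).toReal = ∫ y, F y.1 y.2 ∂lam := by
      have h2 : ∀ y, F y.1 y.2 = A.indicator (fun _ => (1 : ℝ)) y := by
        intro y
        rw [hFdef, ind_apply, sub_zero]
      simp only [h2]
      rw [integral_indicator_const _ hA, smul_eq_mul, mul_one]
      rfl
    rw [h1, int_lam (c := 1) hF.measY (fun y => hF.bdd _ _)]
    have h3 : ∫ x, ∑ g : Z, F x g ∂mu = ∫ x, 6 * F x 0 ∂mu := by
      refine integral_congr_ae ?_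
      filter_upwards [hae0] with x hx
      rw [Finset.sum_congr rfl fun g _ => hx g, Finset.sum_const, card_Z, nsmul_eq_mul]
      norm_num
    rw [show (∫ x, ∑ g : Z, F (x, g).1 (x, g).2 ∂mu) = ∫ x, ∑ g : Z, F x g ∂mu from rfl, h3,
      integral_const_mul]
    ring
  have hmm : m * m = m := by
    have hsq : ∀ x, F x 0 * F x 0 = F x 0 := by
      intro x
      rcases hval x 0 with h | h <;> rw [h] <;> norm_num
    refine eq_of_abs_sub_nonpos (le_of_forall_pos_le_add fun ε hε => ?_)
    obtain ⟨R, h, ha, hD, hd⟩ := approx hA (a := 0) le_rfl zero_le_one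
      (show (0 : ℝ) < ε / 2 by positivity)
    have i1 : Integrable (fun x => F x 0) mu := int_bdX (hF.meas 0) fun x => hF.bdd x 0
    have i2 : Integrable (fun x => h x 0) mu := int_bdX (ha.meas 0) fun x => ha.bdd x 0
    have i3 : Integrable (fun x => F x 0 * h x 0) mu :=
      int_bdX ((hF.meas 0).mul (ha.meas 0)) fun x => abs_mul_le_one (hF.bdd x 0) (ha.bdd x 0)
    have h1 := odo_indep R (fun x => F x 0) (fun x => h x 0) (hF.meas 0) (fun x => hF.bdd x 0)
      hSinv (fun x => ha.bdd x 0) (hD 0)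
    have hd' : ∫ x, |F x 0 - h x 0| ∂mu ≤ ε / 2 := by
      refine le_trans (integral_mono (i1.sub i2).abs (hF.intD ha) fun x => ?_) hd
      exact Finset.single_le_sum (f := fun g => |F x g - h x g|) (fun g _ => abs_nonneg _)
        (Finset.mem_univ 0)
    have h2 : |m - ∫ x, F x 0 * h x 0 ∂mu| ≤ ε / 2 := by
      rw [hm, ← integral_sub i1 i3]
      refine abs_integral_le_integral_abs.trans (le_trans (integral_mono (i1.sub i3).abs
        (i1.sub i2).abs fun x => ?_) hd')
      simp only [Pi.sub_apply]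
      show |F x 0 - F x 0 * h x 0| ≤ |F x 0 - h x 0|
      have e1 : F x 0 - F x 0 * h x 0 = F x 0 * (F x 0 - h x 0) := by
        rw [mul_sub, hsq]
      rw [e1, abs_mul]
      exact mul_le_of_le_one_left (abs_nonneg _) (hF.bdd x 0)
    have h3 : |(∫ x, h x 0 ∂mu) - m| ≤ ε / 2 := by
      rw [hm, ← integral_sub i2 i1]
      refine abs_integral_le_integral_abs.trans (le_trans (le_of_eq ?_) hd')
      congr 1
      funext x
      exact abs_sub_comm _ _
    have h4 : |m| ≤ 1 := by
      rw [← hlam, abs_of_nonneg ENNReal.toReal_nonneg]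
      exact toReal_mem.2
    have h5 : m * m - m = m * (m - ∫ x, h x 0 ∂mu) + (m * (∫ x, h x 0 ∂mu) - m) := by ring
    rw [h1] at h2
    calc |m * m - m| ≤ |m * (m - ∫ x, h x 0 ∂mu)| + |m * (∫ x, h x 0 ∂mu) - m| := by
          rw [h5]
          exact abs_add_le _ _
      _ ≤ 1 * (ε / 2) + ε / 2 := by
          rw [abs_mul]
          refine add_le_add (mul_le_mul h4 ?_ (abs_nonneg _) zero_le_one) ?_
          · rwa [abs_sub_comm]
          · rwa [abs_sub_comm]
      _ = 0 + ε := by ring
  have h01 : m = 0 ∨ m = 1 := by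
    rcases eq_or_ne m 0 with h | h
    · exact Or.inl h
    · right
      exact mul_left_cancel₀ h (by rw [hmm, mul_one])
  rw [eventuallyConst_set']
  rcases h01 with h | h
  · left
    rw [← hlam, ENNReal.toReal_eq_zero_iff] at h
    exact ae_eq_empty.2 (h.resolve_right (measure_ne_top _ _))
  · right
    rw [← hlam] at h
    have h6 : lam A = 1 := by
      rw [← ENNReal.toReal_one] at h
      exact (ENNReal.toReal_eq_toReal_iff' (measure_ne_top _ _) ENNReal.one_ne_top).1 h
    rw [ae_eq_univ]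
    exact (prob_compl_eq_zero_iff hA).2 h6

end Run7.h491.Und
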