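import Pool.Agent.Run7.h491.Und.Odo

/-!
# The product measure, the odometer preserves it
-/

set_option autoImplicit false

open MeasureTheory Filter Topology
open scoped ENNReal

namespace Run7.h491.Und

/-- the uniform probability measure on the digits -/
noncomputable def nu : Measure Z := ∑ j ∈ Finset.range 6, (6 : ℝ≥0∞)⁻¹ • Measure.dirac (j : Z)

open Classical in
lemma nu_apply (B : Set Z) :
    nu B = ∑ j ∈ Finset.range 6, (6 : ℝ≥0∞)⁻¹ * (if (j : Z) ∈ B then 1 else 0) := by
  have hB : MeasurableSet B := trivial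
  simp only [nu, Measure.coe_finsetSum, Finset.sum_apply, Measure.smul_apply, smul_eq_mul]
  refine Finset.sum_congr rfl fun j _ => ?_
  rw [Measure.dirac_apply' _ hB, Set.indicator_apply]
  simp

instance : IsProbabilityMeasure nu := ⟨by
  rw [nu_apply]
  simp only [Set.mem_univ, if_true, mul_one, Finset.sum_const, Finset.card_range, nsmul_eq_mul]
  norm_num
  exact ENNReal.mul_inv_cancel (by norm_num) (by norm_num)⟩

/-- the product measure -/
noncomputable def mu : Measure X := Measure.infinitePi fun _ => nu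

instance : IsProbabilityMeasure mu := by unfold mu; infer_instance

lemma ext_mu {m : Measure X} (h : ∀ (N : ℕ) (t : ℕ → Set Z),
    m {x | ∀ k < N, x k ∈ t k} = ∏ k ∈ Finset.range N, nu (t k)) : m = mu := by
  classical
  refine Measure.eq_infinitePi _ fun s t _ => ?_
  set N := s.sup id + 1 with hN
  have hs : ∀ k ∈ s, k < N := fun k hk => Nat.lt_succ_of_le (Finset.le_sup (f := id) hk)
  have h1 : Set.pi (s : Set ℕ) t =
      {x : X | ∀ k < N, x k ∈ (if k ∈ s then t k else Set.univ)} := by
    ext x
    simp only [Set.mem_pi, Finset.mem_coe, Set.mem_ofPred_eq]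
    constructor
    · intro hx k _
      split_ifs with hk
      · exact hx k hk
      · trivial
    · intro hx k hk
      have := hx k (hs k hk)
      rwa [if_pos hk] at this
  rw [h1, h N (fun k => if k ∈ s then t k else Set.univ)]
  symm
  refine Finset.prod_subset_one_on_sdiff (fun k hk => Finset.mem_range.2 (hs k hk)) ?_ ?_
  · intro k hk
    rw [if_neg (Finset.mem_sdiff.1 hk).2, measure_univ]
  · intro k hk
    rw [if_pos hk]

lemma box_mu (N : ℕ) (t : ℕ → Set Z) :
    mu {x | ∀ k < N, x k ∈ t k} = ∏ k ∈ Finset.range N, nu (t k) := by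
  have h1 : {x : X | ∀ k < N, x k ∈ t k} = Set.pi (Finset.range N : Set ℕ) t := by
    ext x
    simp [Set.mem_pi]
  rw [h1]
  exact Measure.infinitePi_pi (fun _ : ℕ => nu) (s := Finset.range N) (t := t)
    (fun i _ => MeasurableSet.of_discrete)

lemma measurable_cn (j : Z) : Measurable (cn j) := by
  refine measurable_pi_lambda _ fun k => ?_
  cases k with
  | zero => exact measurable_const
  | succ k => exact measurable_pi_apply k

lemma meas_box (N : ℕ) (t : ℕ → Set Z) : MeasurableSet {x : X | ∀ k < N, x k ∈ t k} := by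
  have h1 : {x : X | ∀ k < N, x k ∈ t k} = ⋂ k ∈ Finset.range N, (fun x : X => x k) ⁻¹' (t k) := by
    ext x
    simp
  rw [h1]
  exact Finset.measurableSet_biInter _ fun k _ => measurable_pi_apply k trivial

lemma pre_cn (N : ℕ) (t : ℕ → Set Z) (j : Z) :
    cn j ⁻¹' {x : X | ∀ k < N + 1, x k ∈ t k} =
      {x : X | j ∈ t 0 ∧ ∀ k < N, x k ∈ t (k + 1)} := by
  ext x
  constructor
  · intro h
    exact ⟨h 0 (by omega), fun k hk => h (k + 1) (by omega)⟩
  · rintro ⟨h0, h⟩ k hk
    cases k with
    | zero => exact h0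
    | succ k => exact h k (by omega)

lemma mu_eq : mu = ∑ j ∈ Finset.range 6, (6 : ℝ≥0∞)⁻¹ • mu.map (cn (j : Z)) := by
  classical
  symm
  refine ext_mu fun N t => ?_
  simp only [Measure.coe_finsetSum, Finset.sum_apply, Measure.smul_apply, smul_eq_mul]
  have h1 : ∀ j : ℕ, mu.map (cn (j : Z)) {x | ∀ k < N, x k ∈ t k} =
      mu (cn (j : Z) ⁻¹' {x | ∀ k < N, x k ∈ t k}) := fun j =>
    Measure.map_apply (measurable_cn _) (meas_box N t)
  simp only [h1]
  cases N with
  | zero =>
    simp
    exact ENNReal.mul_inv_cancel (by norm_num) (by norm_num)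
  | succ N =>
    simp only [pre_cn]
    rw [Finset.prod_range_succ', ← box_mu N (fun k => t (k + 1)), nu_apply, Finset.mul_sum]
    refine Finset.sum_congr rfl fun j _ => ?_
    by_cases h : (j : Z) ∈ t 0
    · simp only [h, true_and, if_true, mul_one]
      rw [mul_comm]
    · simp [h]

lemma meas_cn {B : Set X} (hB : MeasurableSet B) :
    mu B = ∑ j ∈ Finset.range 6, (6 : ℝ≥0∞)⁻¹ * mu (cn (j : Z) ⁻¹' B) := by
  conv_lhs => rw [mu_eq]
  simp only [Measure.coe_finsetSum, Finset.sum_apply, Measure.smul_apply, smul_eq_mul]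
  refine Finset.sum_congr rfl fun j _ => ?_
  rw [Measure.map_apply (measurable_cn _) hB]

lemma int_cn {E : Type} [NormedAddCommGroup E] [NormedSpace ℝ E] {F : X → E}
    (hF : StronglyMeasurable F) {C : ℝ} (hC : ∀ x, ‖F x‖ ≤ C) :
    ∫ x, F x ∂mu = (1 / 6 : ℝ) • ∑ j ∈ Finset.range 6, ∫ x, F (cn (j : Z) x) ∂mu := by
  conv_lhs => rw [mu_eq]
  have hI : ∀ m : Measure X, IsFiniteMeasure m → Integrable F m := fun m _ =>
    Integrable.of_bound hF.aestronglyMeasurable C (Eventually.of_forall hC)
  have hfin : ∀ j : ℕ, IsFiniteMeasure ((6 : ℝ≥0∞)⁻¹ • mu.map (cn (j : Z))) := by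
    intro j
    have : IsFiniteMeasure (mu.map (cn (j : Z))) := Measure.isFiniteMeasure_map _ _
    exact Measure.smul_finite _ (by norm_num)
  rw [integral_finsetSum_measure (fun j _ => hI _ (hfin j)), Finset.smul_sum]
  refine Finset.sum_congr rfl fun j _ => ?_
  rw [integral_smul_measure, integral_map (measurable_cn _).aemeasurable
    hF.aestronglyMeasurable]
  congr 1
  norm_num

/-! ### the odometer -/

lemma measurable_S : Measurable S := by
  classical
  refine measurable_pi_lambda _ fun k => ?_
  have h : MeasurableSet {x : X | ∀ i < k, x i = 5} := meas_box k (fun _ => {5})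
  exact Measurable.ite h ((measurable_of_countable fun z : Z => z + 1).comp (measurable_pi_apply k))
    (measurable_pi_apply k)

lemma map_S_box (N : ℕ) : ∀ t : ℕ → Set Z, mu (S ⁻¹' {x | ∀ k < N, x k ∈ t k}) =
    ∏ k ∈ Finset.range N, nu (t k) := by
  classical
  induction N with
  | zero =>
    intro t
    simp
  | succ N ih =>
    intro t
    rw [meas_cn (measurable_S (meas_box _ _)), Finset.prod_range_succ', nu_apply, Finset.mul_sum]
    have h5 : mu (cn ((5 : ℕ) : Z) ⁻¹' (S ⁻¹' {x | ∀ k < N + 1, x k ∈ t k})) =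
        (∏ k ∈ Finset.range N, nu (t (k + 1))) * (if ((0 : ℕ) : Z) ∈ t 0 then 1 else 0) := by
      have e : cn ((5 : ℕ) : Z) ⁻¹' (S ⁻¹' {x | ∀ k < N + 1, x k ∈ t k}) =
          {w | ((0 : ℕ) : Z) ∈ t 0 ∧ S w ∈ {x | ∀ k < N, x k ∈ t (k + 1)}} := by
        ext w
        rw [Set.mem_preimage, Set.mem_preimage]
        have : S (cn ((5 : ℕ) : Z) w) = cn ((0 : ℕ) : Z) (S w) := by
          have := S_cn_five w
          simpa using this
        rw [this, ← Set.mem_preimage, pre_cn]
        rfl
      rw [e]
      by_cases h : ((0 : ℕ) : Z) ∈ t 0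
      · simp only [h, true_and, if_true, mul_one]
        exact ih fun k => t (k + 1)
      · rw [if_neg h, mul_zero, ← measure_empty (μ := mu)]
        congr 1
        ext w
        exact ⟨fun hw => h hw.1, fun hw => hw.elim⟩
    have hlt : ∀ j : ℕ, j < 5 → mu (cn (j : Z) ⁻¹' (S ⁻¹' {x | ∀ k < N + 1, x k ∈ t k})) =
        (∏ k ∈ Finset.range N, nu (t (k + 1))) * (if ((j + 1 : ℕ) : Z) ∈ t 0 then 1 else 0) := by
      intro j hj
      have e : cn (j : Z) ⁻¹' (S ⁻¹' {x | ∀ k < N + 1, x k ∈ t k}) =
          {w | ((j + 1 : ℕ) : Z) ∈ t 0 ∧ ∀ k < N, w k ∈ t (k + 1)} := by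
        ext w
        rw [Set.mem_preimage, Set.mem_preimage]
        have : S (cn (j : Z) w) = cn ((j + 1 : ℕ) : Z) w := by
          rw [S_cn_of_ne (cast_ne_five (by omega) (by omega))]
          push_cast
          rfl
        rw [this, ← Set.mem_preimage, pre_cn]
      rw [e]
      by_cases h : ((j + 1 : ℕ) : Z) ∈ t 0
      · simp only [h, true_and, if_true, mul_one]
        exact box_mu N fun k => t (k + 1)
      · rw [if_neg h, mul_zero, ← measure_empty (μ := mu)]
        congr 1
        ext w
        exact ⟨fun hw => h hw.1, fun hw => hw.elim⟩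
    rw [Finset.sum_range_succ, h5, Finset.sum_congr rfl (fun j hj => by
      rw [hlt j (Finset.mem_range.1 hj)])]
    rw [Finset.sum_range_succ' (n := 5)]
    congr 1
    · refine Finset.sum_congr rfl fun j _ => ?_
      ring
    · ring

lemma mp_S : MeasurePreserving S mu mu := by
  refine ⟨measurable_S, ?_⟩
  refine ext_mu fun N t => ?_
  rw [Measure.map_apply measurable_S (meas_box N t)]
  exact map_S_box N t

/-! ### almost all sequences are good -/

lemma nu_five : nu {5} = (6 : ℝ≥0∞)⁻¹ := by
  classical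
  rw [nu_apply, Finset.sum_eq_single 5]
  · simp
  · intro j hj h5
    have := cast_ne_five (Finset.mem_range.1 hj) h5
    simp [this]
  · intro h
    exact absurd (Finset.mem_range.2 (by norm_num)) h

lemma null_tail (N : ℕ) : mu {x : X | ∀ k, N ≤ k → x k = 5} = 0 := by
  have h1 : ∀ M : ℕ, mu {x : X | ∀ k, N ≤ k → x k = 5} ≤ (6 : ℝ≥0∞)⁻¹ ^ M := by
    intro M
    calc mu {x : X | ∀ k, N ≤ k → x k = 5}
        ≤ mu {x : X | ∀ k < N + M, x k ∈ (if k < N then Set.univ else {5} : Set Z)} := by
          refine measure_mono fun x hx k _ => ?_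
          split_ifs with h
          · trivial
          · exact hx k (by omega)
      _ = ∏ k ∈ Finset.range (N + M), nu (if k < N then Set.univ else {5} : Set Z) := box_mu _ _
      _ = (6 : ℝ≥0∞)⁻¹ ^ M := by
          rw [Finset.prod_range_add, Finset.prod_eq_one, one_mul]
          · rw [Finset.prod_congr rfl (g := fun _ => (6 : ℝ≥0∞)⁻¹), Finset.prod_const,
              Finset.card_range]
            intro k _
            rw [if_neg (by omega), nu_five]
          · intro k hk
            rw [if_pos (Finset.mem_range.1 hk), measure_univ]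
  have h2 : Tendsto (fun M : ℕ => (6 : ℝ≥0∞)⁻¹ ^ M) atTop (𝓝 0) :=
    ENNReal.tendsto_pow_atTop_nhds_zero_of_lt_one (by
      rw [ENNReal.inv_lt_one]; norm_num)
  exact le_antisymm (ge_of_tendsto' h2 h1) bot_le

lemma ae_Gd : ∀ᵐ x ∂mu, Gd x := by
  unfold Gd
  rw [ae_all_iff]
  intro N
  rw [ae_iff]
  convert null_tail N using 2
  ext x
  simp

lemma ae_Gd_cn (j : Z) : ∀ᵐ x ∂mu, Gd (cn j x) := by
  filter_upwards [ae_Gd] with x hx using hx.cn j

/-! ### measurability of the cocycle -/

/-- the functions which depend on the first `R` digits only -/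
def Dep {E : Type} (R : ℕ) (h : X → E) : Prop := ∀ x y : X, (∀ k < R, x k = y k) → h x = h y

lemma Dep.measurable {E : Type} [MeasurableSpace E] {R : ℕ} {h : X → E} (hd : Dep R h) :
    Measurable h := by
  have h1 : h = (fun p : Fin R → Z => h (fun k => if hk : k < R then p ⟨k, hk⟩ else 0)) ∘
      (fun (x : X) (k : Fin R) => x k) := by
    funext x
    refine hd _ _ fun k hk => ?_
    simp [hk]
  rw [h1]
  exact (measurable_of_countable _).comp (measurable_pi_lambda _ fun k => measurable_pi_apply _)

lemma Dep.mono {E : Type} {R R' : ℕ} {h : X → E} (hd : Dep R h) (hR : R ≤ R') : Dep R' h :=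
  fun x y hxy => hd x y fun k hk => hxy k (lt_of_lt_of_le hk hR)

lemma measurable_fst : Measurable fst := by
  classical
  refine measurable_to_countable' fun n => ?_
  have h0 : MeasurableSet {x : X | ∃ k, x k ≠ 5} := by
    have : {x : X | ∃ k, x k ≠ 5} = ⋃ k, (fun x : X => x k) ⁻¹' {5}ᶜ := by
      ext x; simp
    rw [this]
    exact MeasurableSet.iUnion fun k => measurable_pi_apply k trivial
  have h1 : fst ⁻¹' {n} = ({x : X | ∃ k, x k ≠ 5} ∩ {x : X | x n ≠ 5 ∧ ∀ k < n, x k = 5}) ∪
      ({x : X | ∃ k, x k ≠ 5}ᶜ ∩ {_x : X | n = 0}) := by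
    ext x
    simp only [Set.mem_preimage, Set.mem_singleton_iff, Set.mem_union, Set.mem_inter_iff,
      Set.mem_ofPred_eq, Set.mem_compl_iff]
    by_cases h : ∃ k, x k ≠ 5
    · rw [fst, dif_pos h, Nat.find_eq_iff]
      simp only [h, true_and, not_true, false_and, or_false]
      constructor
      · rintro ⟨h2, h3⟩
        exact ⟨h2, fun k hk => by simpa using h3 k hk⟩
      · rintro ⟨h2, h3⟩
        exact ⟨h2, fun k hk => by simpa using h3 k hk⟩
    · rw [fst, dif_neg h]
      simp only [h, false_and, not_false_iff, true_and, false_or]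
      exact eq_comm
  rw [h1]
  refine (h0.inter ?_).union (h0.compl.inter (MeasurableSet.const _))
  have h2 : Dep (n + 1) (fun x : X => x ∈ {x : X | x n ≠ 5 ∧ ∀ k < n, x k = 5}) := by
    intro x y hxy
    simp only [Set.mem_ofPred_eq, eq_iff_iff]
    rw [hxy n (by omega)]
    refine and_congr Iff.rfl (forall₂_congr fun k hk => ?_)
    rw [hxy k (by omega)]
  exact measurableSet_setOfPred.2 h2.measurable

lemma measurable_phi : Measurable phi := by
  have h1 : phi = (fun p : ℕ × X => ∑ k ∈ Finset.range (p.1 + 1), p.2 (k + 1)) ∘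
      (fun x => (fst x, x)) := rfl
  rw [h1]
  refine Measurable.comp ?_ (measurable_fst.prodMk measurable_id)
  refine measurable_from_prod_countable_right fun n => ?_
  exact (show Dep (n + 2) (fun x : X => ∑ k ∈ Finset.range (n + 1), x (k + 1)) from
    fun x y hxy => Finset.sum_congr rfl fun k hk =>
      hxy (k + 1) (by have := Finset.mem_range.1 hk; omega)).measurable

lemma measurable_iter (n : ℕ) : Measurable (S^[n]) := measurable_S.iterate n

lemma measurable_Phi (n : ℕ) : Measurable (Phi n) := by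
  unfold Phi
  induction n with
  | zero => simp only [Finset.range_zero, Finset.sum_empty]; exact measurable_const
  | succ n ih =>
    simp only [Finset.sum_range_succ]
    have h2 : Measurable fun x : X => phi (S^[n] x) := measurable_phi.comp (measurable_iter n)
    exact (measurable_of_countable (fun p : Z × Z => p.1 + p.2)).comp (ih.prodMk h2)

end Run7.h491.Und
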