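import Mathlib

/-!
# A cocycle over the odometer in base 6

`X` is the space of the sequences of base 6 digits, `S` the odometer (add one with carry), `phi` the
cocycle which belongs to the sequence `a(t) = sum_k t_{k+1} t_k mod 6` (a Rudin-Shapiro sequence in
base 6): `phi x = a (x + 1) - a x`.
-/

set_option autoImplicit false

namespace Run7.h491.Und

/-- digits -/
abbrev Z : Type := ZMod 6

/-- digit sequences, the lowest digit first -/
abbrev X : Type := ℕ → Z

/-- put the digit `j` in front -/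
def cn (j : Z) (x : X) : X
  | 0 => j
  | k + 1 => x k

/-- drop the first digit -/
def tl (x : X) : X := fun k => x (k + 1)

@[simp] lemma cn_zero (j : Z) (x : X) : cn j x 0 = j := rfl
@[simp] lemma cn_succ (j : Z) (x : X) (k : ℕ) : cn j x (k + 1) = x k := rfl
lemma cn_tl (x : X) : cn (x 0) (tl x) = x := by
  funext k
  cases k <;> rfl
@[simp] lemma tl_cn (j : Z) (x : X) : tl (cn j x) = x := rfl

open Classical in
/-- the odometer: add one with carry -/
noncomputable def S (x : X) : X := fun k => if ∀ i < k, x i = 5 then x k + 1 else x k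

open Classical in
/-- the place of the first digit which is not `5` -/
noncomputable def fst (x : X) : ℕ := if h : ∃ k, x k ≠ 5 then Nat.find h else 0

/-- the cocycle -/
noncomputable def phi (x : X) : Z := ∑ k ∈ Finset.range (fst x + 1), x (k + 1)

lemma S_zero (x : X) : S x 0 = x 0 + 1 := by
  simp [S]

lemma S_cn_of_ne {j : Z} (hj : j ≠ 5) (w : X) : S (cn j w) = cn (j + 1) w := by
  funext k
  cases k with
  | zero => simp [S]
  | succ k =>
    have h : ¬ ∀ i < k + 1, cn j w i = 5 := fun h => hj (h 0 (Nat.succ_pos k))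
    simp only [S, if_neg h]
    simp

lemma S_cn_five (w : X) : S (cn 5 w) = cn 0 (S w) := by
  funext k
  cases k with
  | zero =>
    simp only [S, cn_zero]
    rw [if_pos (by simp)]
    decide
  | succ k =>
    simp only [S, cn_succ]
    by_cases h : ∀ i < k, w i = 5
    · rw [if_pos h, if_pos]
      intro i hi
      cases i with
      | zero => rfl
      | succ i => exact h i (by omega)
    · rw [if_neg h, if_neg]
      intro h'
      exact h fun i hi => h' (i + 1) (by omega)

lemma fst_cn_of_ne {j : Z} (hj : j ≠ 5) (w : X) : fst (cn j w) = 0 := by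
  classical
  have h : ∃ k, cn j w k ≠ 5 := ⟨0, hj⟩
  rw [fst, dif_pos h, Nat.find_eq_zero]
  exact hj

lemma fst_cn_five {w : X} (hw : ∃ k, w k ≠ 5) : fst (cn 5 w) = fst w + 1 := by
  classical
  have h : ∃ k, cn 5 w k ≠ 5 := by
    obtain ⟨k, hk⟩ := hw
    exact ⟨k + 1, hk⟩
  rw [fst, dif_pos h, fst, dif_pos hw, Nat.find_eq_iff]
  refine ⟨Nat.find_spec hw, ?_⟩
  intro k hk
  cases k with
  | zero => simp
  | succ k => exact Nat.find_min hw (by omega)

lemma phi_cn_of_ne {j : Z} (hj : j ≠ 5) (w : X) : phi (cn j w) = w 0 := by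
  rw [phi, fst_cn_of_ne hj]
  simp

lemma phi_cn_five {w : X} (hw : ∃ k, w k ≠ 5) : phi (cn 5 w) = w 0 + phi w := by
  rw [phi, fst_cn_five hw, Finset.sum_range_succ']
  simp only [cn_succ]
  rw [phi, add_comm]

/-- infinitely many digits are not `5` -/
def Gd (x : X) : Prop := ∀ N, ∃ k, N ≤ k ∧ x k ≠ 5

lemma Gd.ex {x : X} (h : Gd x) : ∃ k, x k ≠ 5 := by
  obtain ⟨k, -, hk⟩ := h 0
  exact ⟨k, hk⟩

lemma Gd.cn {w : X} (h : Gd w) (j : Z) : Gd (cn j w) := by
  intro N
  obtain ⟨k, hk, hk'⟩ := h N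
  exact ⟨k + 1, by omega, hk'⟩

lemma Gd.S {x : X} (h : Gd x) : Gd (S x) := by
  intro N
  obtain ⟨m, -, hm⟩ := h 0
  obtain ⟨k, hk, hk'⟩ := h (max N (m + 1))
  refine ⟨k, le_trans (le_max_left _ _) hk, ?_⟩
  have h1 : ¬ ∀ i < k, x i = 5 := fun h2 => hm (h2 m (by
    have := le_trans (le_max_right _ _) hk
    omega))
  simp only [Run7.h491.Und.S, if_neg h1]
  exact hk'

lemma Gd.iter {x : X} (h : Gd x) (n : ℕ) : Gd (Run7.h491.Und.S^[n] x) := by
  induction n with
  | zero => exact h
  | succ n ih =>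
    rw [Function.iterate_succ_apply']
    exact ih.S

lemma iter_zero (x : X) (n : ℕ) : (S^[n] x) 0 = x 0 + n := by
  induction n with
  | zero => simp
  | succ n ih =>
    rw [Function.iterate_succ_apply', S_zero, ih]
    push_cast
    ring

/-- the cocycle of the `n`-th power -/
noncomputable def Phi (n : ℕ) (x : X) : Z := ∑ i ∈ Finset.range n, phi (S^[i] x)

lemma Phi_succ (n : ℕ) (x : X) : Phi (n + 1) x = Phi n x + phi (S^[n] x) :=
  Finset.sum_range_succ _ _

@[simp] lemma Phi_zero (x : X) : Phi 0 x = 0 := rfl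

lemma cast_ne_five {i : ℕ} (hi : i < 6) (h5 : i ≠ 5) : (i : Z) ≠ 5 := by
  interval_cases i <;> first | exact absurd rfl h5 | decide

/-- The formula for the powers of the odometer and for the cocycle, by the first digit. -/
lemma key {w : X} (hw : Gd w) {j : ℕ} (hj : j < 6) (n : ℕ) : ∀ (n' i : ℕ), i < 6 →
    n + j = 6 * n' + i → S^[n] (cn j w) = cn i (S^[n'] w) ∧
      Phi n (cn j w) = Phi n' w + (w 0 + n') * i - w 0 * j := by
  induction n with
  | zero =>
    intro n' i hi h
    have h1 : n' = 0 := by omega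
    have h2 : i = j := by omega
    subst h1; subst h2
    refine ⟨rfl, ?_⟩
    simp
  | succ n ih =>
    intro n' i hi h
    rcases Nat.eq_zero_or_pos i with h0 | h0
    · subst h0
      have hn : 0 < n' := by omega
      obtain ⟨m, rfl⟩ : ∃ m, n' = m + 1 := ⟨n' - 1, by omega⟩
      obtain ⟨h1, h2⟩ := ih m 5 (by norm_num) (by omega)
      rw [Function.iterate_succ_apply', Phi_succ, h1, h2]
      have hg := hw.iter m
      have e5 : ((5 : ℕ) : Z) = 5 := rfl
      rw [e5, S_cn_five, phi_cn_five hg.ex, iter_zero, ← Function.iterate_succ_apply' S m w,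
        Phi_succ]
      refine ⟨by simp, ?_⟩
      have h6 : (6 : Z) = 0 := by decide
      push_cast
      linear_combination (w 0 + (m : Z)) * h6
    · obtain ⟨k, rfl⟩ : ∃ k, i = k + 1 := ⟨i - 1, by omega⟩
      obtain ⟨h1, h2⟩ := ih n' k (by omega) (by omega)
      rw [Function.iterate_succ_apply', Phi_succ, h1, h2]
      have h5 : (k : Z) ≠ 5 := cast_ne_five (by omega) (by omega)
      rw [S_cn_of_ne h5, phi_cn_of_ne h5, iter_zero]
      refine ⟨by push_cast; rfl, ?_⟩
      push_cast
      ring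

lemma key6 {w : X} (hw : Gd w) {j : ℕ} (hj : j < 6) (n : ℕ) :
    S^[6 * n] (cn j w) = cn j (S^[n] w) ∧ Phi (6 * n) (cn j w) = Phi n w + n * j := by
  obtain ⟨h1, h2⟩ := key hw hj (6 * n) n j hj rfl
  refine ⟨h1, ?_⟩
  rw [h2]
  ring

end Run7.h491.Und
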