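import Pool.Agent.Run7.h491.Und.Chr

/-!
# Partial rigidity of the factors with the fibres `ZMod 2` and `ZMod 3`
-/

set_option autoImplicit false

open MeasureTheory Filter Topology

namespace Run7.h491.Und

/-- bounded measurable functions -/
structure Adm (h : X → Z → ℝ) : Prop where
  meas : ∀ g, Measurable fun x => h x g
  bdd : ∀ x g, |h x g| ≤ 1

/-- the correlation `∫ h(T^n y) h(y)`, multiplied by six -/
noncomputable def C (n : ℕ) (h : X → Z → ℝ) : ℝ :=
  ∫ x, ∑ g : Z, h (S^[n] x) (g + Phi n x) * h x g ∂mu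

/-- the square of the norm, multiplied by six -/
noncomputable def N (h : X → Z → ℝ) : ℝ := ∫ x, ∑ g : Z, h x g * h x g ∂mu

lemma Adm.meas2 {h : X → Z → ℝ} (ha : Adm h) : Measurable fun q : X × Z => h q.1 q.2 :=
  measurable_from_prod_countable_left ha.meas

lemma Adm.measC {h h' : X → Z → ℝ} (ha : Adm h) (ha' : Adm h') (n : ℕ) :
    Measurable fun x => ∑ g : Z, h (S^[n] x) (g + Phi n x) * h' x g := by
  refine Finset.measurable_sum _ fun g _ => ?_
  refine Measurable.mul ?_ (ha'.meas g)
  have h1 : Measurable fun x : X => g + Phi n x :=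
    (measurable_of_countable fun z : Z => g + z).comp (measurable_Phi n)
  exact ha.meas2.comp ((measurable_iter n).prodMk h1)

lemma Adm.measN {h h' : X → Z → ℝ} (ha : Adm h) (ha' : Adm h') :
    Measurable fun x => ∑ g : Z, h x g * h' x g :=
  Finset.measurable_sum _ fun g _ => (ha.meas g).mul (ha'.meas g)

lemma card_Z : (Finset.univ : Finset Z).card = 6 := by
  rw [Finset.card_univ, ZMod.card]

lemma sum_bound (u : Z → ℝ) (hu : ∀ g, |u g| ≤ 1) : |∑ g : Z, u g| ≤ 6 := by
  calc |∑ g : Z, u g| ≤ ∑ g : Z, |u g| := Finset.abs_sum_le_sum_abs _ _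
    _ ≤ ∑ _g : Z, (1 : ℝ) := Finset.sum_le_sum fun g _ => hu g
    _ = 6 := by rw [Finset.sum_const, card_Z]; norm_num

lemma abs_mul_le_one {a b : ℝ} (ha : |a| ≤ 1) (hb : |b| ≤ 1) : |a * b| ≤ 1 := by
  rw [abs_mul]
  exact mul_le_one₀ ha (abs_nonneg _) hb

lemma Adm.bddC {h h' : X → Z → ℝ} (ha : Adm h) (ha' : Adm h') (n : ℕ) (x : X) :
    ‖∑ g : Z, h (S^[n] x) (g + Phi n x) * h' x g‖ ≤ 6 := by
  rw [Real.norm_eq_abs]
  exact sum_bound _ fun g => abs_mul_le_one (ha.bdd _ _) (ha'.bdd _ _)

lemma Adm.bddN {h h' : X → Z → ℝ} (ha : Adm h) (ha' : Adm h') (x : X) :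
    ‖∑ g : Z, h x g * h' x g‖ ≤ 6 := by
  rw [Real.norm_eq_abs]
  exact sum_bound _ fun g => abs_mul_le_one (ha.bdd _ _) (ha'.bdd _ _)

lemma Adm.intC {h h' : X → Z → ℝ} (ha : Adm h) (ha' : Adm h') (n : ℕ) :
    Integrable (fun x => ∑ g : Z, h (S^[n] x) (g + Phi n x) * h' x g) mu :=
  Integrable.of_bound (ha.measC ha' n).aestronglyMeasurable 6
    (Eventually.of_forall (ha.bddC ha' n))

lemma Adm.intN {h h' : X → Z → ℝ} (ha : Adm h) (ha' : Adm h') :
    Integrable (fun x => ∑ g : Z, h x g * h' x g) mu :=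
  Integrable.of_bound (ha.measN ha').aestronglyMeasurable 6
    (Eventually.of_forall (ha.bddN ha'))

lemma Adm.cn {h : X → Z → ℝ} (ha : Adm h) (j : Z) : Adm fun x g => h (cn j x) g :=
  ⟨fun g => (ha.meas g).comp (measurable_cn j), fun x g => ha.bdd _ _⟩

lemma N_step {h : X → Z → ℝ} (ha : Adm h) :
    N h = (1 / 6 : ℝ) * ∑ j ∈ Finset.range 6, N (fun x g => h (cn (j : Z) x) g) := by
  unfold N
  rw [int_cn (ha.measN ha).stronglyMeasurable (ha.bddN ha), smul_eq_mul]

/-- `h` is invariant under the translation of the fibre by `d` -/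
def Inv (d : ℕ) (h : X → Z → ℝ) : Prop := ∀ x g, h x (g + d) = h x g

lemma Inv.mul {d : ℕ} {h : X → Z → ℝ} (hi : Inv d h) (x : X) (g : Z) (k : ℕ) :
    h x (g + d * k) = h x g := by
  induction k with
  | zero => simp
  | succ k ih =>
    rw [← ih, ← hi x (g + d * k)]
    congr 1
    push_cast
    ring

lemma C_step {d n : ℕ} (hdn : d ∣ n) {h : X → Z → ℝ} (ha : Adm h) (hi : Inv d h) :
    C (6 * n) h = (1 / 6 : ℝ) * ∑ j ∈ Finset.range 6, C n (fun x g => h (cn (j : Z) x) g) := by
  conv_lhs => unfold C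
  rw [int_cn (ha.measC ha _).stronglyMeasurable (ha.bddC ha _), smul_eq_mul]
  congr 1
  refine Finset.sum_congr rfl fun j hj => ?_
  unfold C
  refine integral_congr_ae ?_
  filter_upwards [ae_Gd] with w hw
  obtain ⟨h1, h2⟩ := key6 hw (Finset.mem_range.1 hj) n
  rw [h1, h2]
  obtain ⟨q, rfl⟩ := hdn
  refine Finset.sum_congr rfl fun g _ => ?_
  congr 1
  rw [← hi.mul _ (g + Phi (d * q) w) (q * j)]
  congr 1
  push_cast
  ring

/-- the sum of `d` consecutive values of a `d`-periodic function -/
lemma sum_consec {d : ℕ} {e : Z → ℝ} (he : ∀ g, e (g + d) = e g) (a : Z) :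
    ∑ i ∈ Finset.range d, e (a + i) = ∑ i ∈ Finset.range d, e i := by
  have h1 : ∀ a : Z, ∑ i ∈ Finset.range d, e (a + 1 + i) = ∑ i ∈ Finset.range d, e (a + i) := by
    intro a
    have h2 := Finset.sum_range_succ (fun i : ℕ => e (a + i)) d
    have h3 := Finset.sum_range_succ' (fun i : ℕ => e (a + i)) d
    rw [h2] at h3
    rw [he a] at h3
    simp only [Nat.cast_zero, add_zero] at h3
    have h4 := add_right_cancel h3
    rw [h4]
    refine Finset.sum_congr rfl fun i _ => ?_
    congr 1
    push_cast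
    ring
  have h5 : ∀ k : ℕ, ∑ i ∈ Finset.range d, e ((k : Z) + i) = ∑ i ∈ Finset.range d, e i := by
    intro k
    induction k with
    | zero => simp
    | succ k ih =>
      rw [← ih]
      push_cast
      exact h1 k
  have h6 := h5 a.val
  rwa [ZMod.natCast_zmod_val] at h6

lemma C_base {d : ℕ} (hd1 : 1 ≤ d) (hd : d ≤ 3) {e : Z → ℝ} (he : ∀ g, e (g + d) = e g)
    (hb : ∀ g, |e g| ≤ 1) :
    (1 / 2 : ℝ) * N (fun _ g => e g) ≤ C d (fun _ g => e g) := by
  have ha : Adm (fun (_ : X) g => e g) := ⟨fun g => measurable_const, fun x g => hb g⟩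
  have hN : N (fun _ g => e g) = ∑ g : Z, e g * e g := by
    simp [N]
  set s := ∑ i ∈ Finset.range d, e i with hs
  have hadd : ∀ (q : ℕ) (g a : Z), e (g + (a * d * q)) = e g := by
    intro q g a
    have hi : Inv d (fun (_ : X) g => e g) := fun x g => he g
    have h := hi.mul (fun _ => 0) g (a.val * q)
    rw [← h]
    congr 1
    push_cast
    rw [ZMod.natCast_zmod_val]
    ring
  have hcomp : C d (fun _ g => e g) = (1 / 6 : ℝ) * ((6 - d : ℕ) * (∑ g : Z, e g * e g) +
      s * ∑ g : Z, e g) := by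
    unfold C
    rw [int_cn (ha.measC ha _).stronglyMeasurable (ha.bddC ha _), smul_eq_mul]
    congr 1
    have hsplit : Finset.range 6 = Finset.range ((6 - d) + d) := by
      congr 1; omega
    rw [hsplit, Finset.sum_range_add]
    congr 1
    · have e0 : ((6 - d : ℕ) : ℝ) * (∑ g : Z, e g * e g) =
          ∑ _j ∈ Finset.range (6 - d), (∑ g : Z, e g * e g) := by
        rw [Finset.sum_const, Finset.card_range, nsmul_eq_mul]
      rw [e0]
      refine Finset.sum_congr rfl fun j hj => ?_
      have hj' := Finset.mem_range.1 hj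
      have h1 : ∀ᵐ w ∂mu, (∑ g : Z, e (g + Phi d (cn (j : Z) w)) * e g) = ∑ g : Z, e g * e g := by
        filter_upwards [ae_Gd] with w hw
        obtain ⟨-, h2⟩ := key hw (show j < 6 by omega) d 0 (d + j) (by omega) (by omega)
        refine Finset.sum_congr rfl fun g _ => ?_
        congr 1
        rw [h2]
        have h3 := hadd 1 g (w 0)
        rw [← h3]
        congr 1
        push_cast
        rw [Phi_zero]
        ring
      rw [integral_congr_ae h1]
      simp
    · have h1 : ∀ i ∈ Finset.range d,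
          ∫ w, (∑ g : Z, e (g + Phi d (cn (((6 - d + i : ℕ)) : Z) w)) * e g) ∂mu =
          ∫ w, (∑ g : Z, e (g + phi w + i) * e g) ∂mu := by
        intro i hi
        have hi' := Finset.mem_range.1 hi
        refine integral_congr_ae ?_
        filter_upwards [ae_Gd] with w hw
        obtain ⟨-, h2⟩ := key hw (show 6 - d + i < 6 by omega) d 1 i (by omega) (by omega)
        refine Finset.sum_congr rfl fun g _ => ?_
        congr 1
        rw [h2]
        have h3 := hadd 1 (g + phi w + i) (w 0)
        rw [← h3]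
        congr 1
        have h4 : ((6 - d + i : ℕ) : Z) = i - d := by
          have h5 : ((6 - d + i : ℕ) : Z) + d = i := by
            have : 6 - d + i + d = 6 + i := by omega
            rw [← Nat.cast_add, this]
            push_cast
            have h6 : (6 : Z) = 0 := by decide
            rw [h6, zero_add]
          linear_combination h5
        rw [h4]
        have h7 : Phi 1 w = phi w := by
          rw [Phi_succ, Phi_zero]
          simp
        rw [h7]
        push_cast
        ring
      rw [Finset.sum_congr rfl h1, ← integral_finsetSum]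
      · have h2 : ∀ w : X, ∑ i ∈ Finset.range d, ∑ g : Z, e (g + phi w + i) * e g =
            s * ∑ g : Z, e g := by
          intro w
          rw [Finset.sum_comm, Finset.mul_sum]
          refine Finset.sum_congr rfl fun g _ => ?_
          rw [← Finset.sum_mul, sum_consec he]
        simp only [h2]
        simp
      · intro i _
        refine Integrable.of_bound (C := 6) ?_ (Eventually.of_forall fun w => ?_)
        · refine Measurable.aestronglyMeasurable ?_
          exact (measurable_of_countable fun z : Z => ∑ g : Z, e (g + z + i) * e g).comp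
            measurable_phi
        · rw [Real.norm_eq_abs]
          exact sum_bound _ fun g => abs_mul_le_one (hb _) (hb _)
  have hprod : 0 ≤ s * ∑ g : Z, e g := by
    have h1 : (d : ℝ) * ∑ g : Z, e g = 6 * s := by
      have h2 : ∑ i ∈ Finset.range d, ∑ g : Z, e (g + i) = (d : ℝ) * ∑ g : Z, e g := by
        rw [Finset.sum_congr rfl (g := fun _ => ∑ g : Z, e g), Finset.sum_const,
          Finset.card_range, nsmul_eq_mul]
        intro i _
        exact Fintype.sum_equiv (Equiv.addRight (i : Z)) _ _ fun g => rfl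
      rw [← h2, Finset.sum_comm, Finset.sum_congr rfl fun g _ => sum_consec he g,
        Finset.sum_const, card_Z, nsmul_eq_mul]
      norm_num [hs]
    have h3 : (0 : ℝ) < d := by exact_mod_cast hd1
    have h4 : ∑ g : Z, e g = 6 * s / d := by
      field_simp
      linarith
    rw [h4]
    have : s * (6 * s / d) = 6 * s ^ 2 / d := by ring
    rw [this]
    positivity
  rw [hN, hcomp]
  have h5 : (3 : ℝ) ≤ ((6 - d : ℕ) : ℝ) := by
    have : 3 ≤ 6 - d := by omega
    exact_mod_cast this
  have h6 : 0 ≤ ∑ g : Z, e g * e g := Finset.sum_nonneg fun g _ => mul_self_nonneg _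
  nlinarith

/-- Partial rigidity for the functions of finitely many digits. -/
lemma rigid {d : ℕ} (hd1 : 1 ≤ d) (hd : d ≤ 3) (r : ℕ) : ∀ h : X → Z → ℝ, Adm h → Inv d h →
    (∀ g, Dep r fun x => h x g) → (1 / 2 : ℝ) * N h ≤ C (d * 6 ^ r) h := by
  induction r with
  | zero =>
    intro h ha hi hD
    have e : h = fun _ g => h (fun _ => 0) g := by
      funext x g
      exact hD g _ _ fun k hk => absurd hk (Nat.not_lt_zero k)
    rw [e, pow_zero, mul_one]
    exact C_base hd1 hd (fun g => hi _ g) (fun g => ha.bdd _ g)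
  | succ r ih =>
    intro h ha hi hD
    have e : d * 6 ^ (r + 1) = 6 * (d * 6 ^ r) := by ring
    rw [e, C_step (dvd_mul_right d _) ha hi, N_step ha, ← mul_assoc, mul_comm (1 / 2 : ℝ),
      mul_assoc, Finset.mul_sum]
    refine mul_le_mul_of_nonneg_left (Finset.sum_le_sum fun j _ => ?_) (by norm_num)
    refine ih _ (ha.cn j) (fun x g => hi _ g) fun g x y hxy => ?_
    refine hD g _ _ fun k hk => ?_
    cases k with
    | zero => rfl
    | succ k => exact hxy k (by omega)

end Run7.h491.Und
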