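import Pool.Agent.Run7.h491.Und.Apx

/-!
# The system; it has no under-recurrent set
-/

set_option autoImplicit false

open MeasureTheory Filter Topology
open scoped ENNReal symmDiff

namespace Run7.h491.Und

/-- the skew product -/
noncomputable def T (p : X × Z) : X × Z := (S p.1, p.2 + phi p.1)

/-- its invariant measure -/
noncomputable def lam : Measure (X × Z) := mu.prod nu

instance : IsProbabilityMeasure lam := by unfold lam; infer_instance

lemma T_iter (n : ℕ) (p : X × Z) : T^[n] p = (S^[n] p.1, p.2 + Phi n p.1) := by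
  induction n with
  | zero => simp
  | succ n ih =>
    rw [Function.iterate_succ_apply', ih, Function.iterate_succ_apply', Phi_succ, T]
    simp only [add_assoc]

lemma int_nu (e : Z → ℝ) : ∫ g, e g ∂nu = (1 / 6 : ℝ) * ∑ g : Z, e g := by
  unfold nu
  rw [integral_finsetSum_measure, ← sum_Z, Finset.mul_sum]
  · refine Finset.sum_congr rfl fun j _ => ?_
    rw [integral_smul_measure, integral_dirac, smul_eq_mul]
    norm_num
  · intro j _
    exact (integrable_dirac (by simp)).smul_measure (by norm_num)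

lemma int_lam {F : X × Z → ℝ} (hF : Measurable F) {c : ℝ} (hc : ∀ y, |F y| ≤ c) :
    ∫ y, F y ∂lam = (1 / 6 : ℝ) * ∫ x, ∑ g : Z, F (x, g) ∂mu := by
  unfold lam
  rw [integral_prod _ (Integrable.of_bound hF.aestronglyMeasurable c (Eventually.of_forall hc)),
    ← integral_const_mul]
  congr 1
  funext x
  exact int_nu _

lemma nu_add (a : Z) : nu.map (fun z => z + a) = nu := by
  classical
  ext B hB
  rw [Measure.map_apply (measurable_of_countable _) hB, nu_apply, nu_apply]
  rw [sum_Z (fun z : Z => (6 : ℝ≥0∞)⁻¹ * (if z ∈ (fun z => z + a) ⁻¹' B then 1 else 0)),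
    sum_Z (fun z : Z => (6 : ℝ≥0∞)⁻¹ * (if z ∈ B then 1 else 0))]
  exact Fintype.sum_equiv (Equiv.addRight a) _ _ fun g => rfl

lemma mp_T : MeasurePreserving T lam lam := by
  have hm : Measurable (Function.uncurry fun (x : X) (z : Z) => z + phi x) := by
    have h1 : Measurable fun q : Z × Z => q.1 + q.2 := measurable_of_countable _
    exact h1.comp (measurable_snd.prodMk (measurable_phi.comp _root_.measurable_fst))
  exact MeasurePreserving.skew_product (g := fun x z => z + phi x) mp_S hm
    (Eventually.of_forall fun x => nu_add _)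

lemma Adm.measY {h : X → Z → ℝ} (ha : Adm h) : Measurable fun y : X × Z => h y.1 y.2 := ha.meas2

lemma cor {h h' : X → Z → ℝ} (ha : Adm h) (ha' : Adm h') (n : ℕ) :
    ∫ y, h (T^[n] y).1 (T^[n] y).2 * h' y.1 y.2 ∂lam =
      (1 / 6 : ℝ) * ∫ x, ∑ g : Z, h (S^[n] x) (g + Phi n x) * h' x g ∂mu := by
  rw [int_lam (c := 1)]
  · simp only [T_iter]
  · have h1 := ha.measY.comp (mp_T.iterate n).measurable
    exact h1.mul ha'.measY
  · intro y
    exact abs_mul_le_one (ha.bdd _ _) (ha'.bdd _ _)

open Classical in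
lemma ind_apply (A : Set (X × Z)) (a : ℝ) (y : X × Z) :
    ind A a y.1 y.2 = A.indicator (fun _ => (1 : ℝ)) y - a := by
  simp only [ind, Set.indicator_apply]

/-- the correlations of an indicator function minus its mean -/
lemma cor_ind {A : Set (X × Z)} (hA : MeasurableSet A) (n : ℕ) :
    ∫ y, ind A (lam A).toReal (T^[n] y).1 (T^[n] y).2 * ind A (lam A).toReal y.1 y.2 ∂lam =
      (lam (A ∩ T^[n] ⁻¹' A)).toReal - (lam A).toReal ^ 2 := by
  classical
  have hTA : MeasurableSet (T^[n] ⁻¹' A) := (mp_T.iterate n).measurable hA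
  have e1 : ∀ y : X × Z, ind A (lam A).toReal (T^[n] y).1 (T^[n] y).2 *
      ind A (lam A).toReal y.1 y.2 =
      (A ∩ T^[n] ⁻¹' A).indicator (fun _ => (1 : ℝ)) y -
      (lam A).toReal * (T^[n] ⁻¹' A).indicator (fun _ => (1 : ℝ)) y -
      (lam A).toReal * A.indicator (fun _ => (1 : ℝ)) y + (lam A).toReal ^ 2 := by
    intro y
    rw [ind_apply, ind_apply]
    simp only [Set.indicator_apply, Set.mem_inter_iff, Set.mem_preimage]
    by_cases h1 : y ∈ A <;> by_cases h2 : T^[n] y ∈ A <;> simp [h1, h2] <;> ring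
  have i0 : ∀ B : Set (X × Z), MeasurableSet B →
      Integrable (B.indicator (fun _ => (1 : ℝ))) lam := fun B hB =>
    (integrable_const (1 : ℝ)).indicator hB
  simp only [e1]
  rw [integral_add (f := fun y => (A ∩ T^[n] ⁻¹' A).indicator (fun _ => (1 : ℝ)) y -
      (lam A).toReal * (T^[n] ⁻¹' A).indicator (fun _ => (1 : ℝ)) y -
      (lam A).toReal * A.indicator (fun _ => (1 : ℝ)) y)
      (((i0 _ (hA.inter hTA)).sub ((i0 _ hTA).const_mul _)).sub
      ((i0 _ hA).const_mul _)) (integrable_const _),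
    integral_sub (f := fun y => (A ∩ T^[n] ⁻¹' A).indicator (fun _ => (1 : ℝ)) y -
      (lam A).toReal * (T^[n] ⁻¹' A).indicator (fun _ => (1 : ℝ)) y)
      ((i0 _ (hA.inter hTA)).sub ((i0 _ hTA).const_mul _)) ((i0 _ hA).const_mul _),
    integral_sub (i0 _ (hA.inter hTA)) ((i0 _ hTA).const_mul _),
    integral_const_mul, integral_const_mul, integral_indicator_const _ hA,
    integral_indicator_const _ hTA, integral_indicator_const _ (hA.inter hTA)]
  simp only [smul_eq_mul, mul_one, integral_const, probReal_univ, one_mul]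
  have e2 : lam.real (T^[n] ⁻¹' A) = lam.real A := by
    unfold Measure.real
    rw [(mp_T.iterate n).measure_preimage hA.nullMeasurableSet]
  rw [e2]
  unfold Measure.real
  ring

lemma toReal_mem {A : Set (X × Z)} : 0 ≤ (lam A).toReal ∧ (lam A).toReal ≤ 1 := by
  refine ⟨ENNReal.toReal_nonneg, ?_⟩
  have h : lam A ≤ 1 := prob_le_one
  exact ENNReal.toReal_le_of_le_ofReal (by norm_num) (by simpa using h)

/-- The averages of an under-recurrent set (minus its measure) over the two subgroups of the fibre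
vanish. -/
lemma avg_zero {A : Set (X × Z)} (hA : MeasurableSet A)
    (hU : ∀ n : ℕ, 1 ≤ n → lam (A ∩ T^[n] ⁻¹' A) ≤ lam A ^ 2) {d q : ℕ} (hd1 : 1 ≤ d)
    (hd : d ≤ 3) (hq : 0 < q) (hdq : ((d * q : ℕ) : Z) = 0) :
    ∀ᵐ x ∂mu, ∀ g, avg d q (ind A (lam A).toReal) x g = 0 := by
  set a := (lam A).toReal with ha
  obtain ⟨ha0, ha1⟩ : 0 ≤ a ∧ a ≤ 1 := toReal_mem
  have hI : Adm (ind A a) := ind_adm hA ha0 ha1
  set F := avg d q (ind A a) with hF
  have hFa : Adm F := avg_adm hq hI
  -- the correlations with the average tend to zero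
  have hdec : Tendsto (fun n => C n F) atTop (𝓝 0) := by
    have h1 : Tendsto (fun n => ∫ y, ind A a (T^[n] y).1 (T^[n] y).2 * F y.1 y.2 ∂lam) atTop
        (𝓝 0) := by
      refine decay (u := fun n y => ind A a (T^[n] y).1 (T^[n] y).2) ?_ ?_ ?_
        (h := fun y => F y.1 y.2) hFa.measY (fun y => hFa.bdd _ _)
      · intro n
        exact hI.measY.comp (mp_T.iterate n).measurable
      · intro n y
        exact hI.bdd _ _
      · have key : ∀ n k : ℕ, 1 ≤ k → ∫ y, ind A a (T^[n] y).1 (T^[n] y).2 *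
            ind A a (T^[n + k] y).1 (T^[n + k] y).2 ∂lam ≤ 0 := by
          intro n k hk
          have e1 : ∫ y, ind A a (T^[n] y).1 (T^[n] y).2 *
              ind A a (T^[n + k] y).1 (T^[n + k] y).2 ∂lam =
              ∫ y, ind A a (T^[k] y).1 (T^[k] y).2 * ind A a y.1 y.2 ∂lam := by
            have e2 : ∀ y, ind A a (T^[n] y).1 (T^[n] y).2 *
                ind A a (T^[n + k] y).1 (T^[n + k] y).2 =
                (fun y => ind A a (T^[k] y).1 (T^[k] y).2 * ind A a y.1 y.2) (T^[n] y) := by
              intro y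
              simp only
              rw [← Function.iterate_add_apply, add_comm k n, mul_comm]
            simp only [e2]
            have e3 := (mp_T.iterate n)
            rw [← integral_map (μ := lam) e3.measurable.aemeasurable
              (f := fun y => ind A a (T^[k] y).1 (T^[k] y).2 * ind A a y.1 y.2), e3.map_eq]
            exact ((hI.measY.comp (mp_T.iterate k).measurable).mul hI.measY).aestronglyMeasurable
          rw [e1, cor_ind hA, sub_nonpos, ← ENNReal.toReal_pow]
          exact ENNReal.toReal_mono (by finiteness) (hU k hk)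
        intro n m hnm
        rcases lt_or_gt_of_ne hnm with h | h
        · obtain ⟨k, rfl⟩ := Nat.exists_eq_add_of_lt h
          exact key n (k + 1) (by omega)
        · obtain ⟨k, rfl⟩ := Nat.exists_eq_add_of_lt h
          have := key m (k + 1) (by omega)
          simp only [mul_comm] at this ⊢
          exact this
    have h2 : ∀ n, C n F = 6 * ∫ y, ind A a (T^[n] y).1 (T^[n] y).2 * F y.1 y.2 ∂lam := by
      intro n
      rw [cor hI hFa, C_avg hq hdq]
      ring
    simp only [h2]
    simpa using h1.const_mul 6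
  -- the norm of the average
  have hN : N F ≤ 0 := by
    refine le_of_forall_pos_le_add fun ε hε => ?_
    obtain ⟨R, h, hh1, hh2, hh3⟩ := approx hA ha0 ha1 (show (0 : ℝ) < ε / 6 by positivity)
    have hG : Adm (avg d q h) := avg_adm hq hh1
    have hD : D F (avg d q h) ≤ ε / 6 := (avg_D hq hI hh1).trans hh3
    have hr : ∀ r, R ≤ r → (1 / 2 : ℝ) * N F - ε / 2 ≤ C (d * 6 ^ r) F := by
      intro r hr
      have h1 := rigid hd1 hd r (avg d q h) hG (avg_inv hdq h)
        (fun g => (avg_dep hh2 g).mono hr)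
      have h2 := (abs_le.1 (C_close hFa hG (d * 6 ^ r))).1
      have h3 := (abs_le.1 (N_close hFa hG)).2
      linarith
    have hlim : Tendsto (fun r : ℕ => C (d * 6 ^ r) F) atTop (𝓝 0) := by
      refine hdec.comp ?_
      refine tendsto_atTop_mono (fun r => ?_) (tendsto_pow_atTop_atTop_of_one_lt
        (show 1 < 6 by norm_num))
      exact Nat.le_mul_of_pos_left _ hd1
    have h5 := ge_of_tendsto hlim (eventually_atTop.2 ⟨R, hr⟩)
    linarith
  have hN0 : ∫ x, ∑ g : Z, F x g * F x g ∂mu = 0 :=
    le_antisymm hN (integral_nonneg fun x => Finset.sum_nonneg fun g _ => mul_self_nonneg _)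
  rw [integral_eq_zero_iff_of_nonneg
    (fun x => Finset.sum_nonneg fun g _ => mul_self_nonneg _) (hFa.intN hFa)] at hN0
  filter_upwards [hN0] with x hx g
  have h6 : ∑ g : Z, F x g * F x g = 0 := hx
  have h7 := (Finset.sum_eq_zero_iff_of_nonneg (fun g _ => mul_self_nonneg _)).1 h6 g
    (Finset.mem_univ g)
  exact mul_self_eq_zero.1 h7

theorem no_set (A : Set (X × Z)) (hA : MeasurableSet A) (h0 : 0 < lam A) (h1 : lam A < 1)
    (hU : ∀ n : ℕ, 1 ≤ n → lam (A ∩ T^[n] ⁻¹' A) ≤ lam A ^ 2) : False := by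
  classical
  have ha := avg_zero hA hU (d := 3) (q := 2) (by norm_num) le_rfl (by norm_num) (by decide)
  have hb := avg_zero hA hU (d := 2) (q := 3) (by norm_num) (by norm_num) (by norm_num)
    (by decide)
  obtain ⟨x, hx1, hx2⟩ := (ha.and hb).exists
  have hx1 := hx1 0
  have hx2 := hx2 0
  set a := (lam A).toReal with hadef
  have hapos : 0 < a := ENNReal.toReal_pos h0.ne' (measure_ne_top _ _)
  have halt : a < 1 := by
    have := (ENNReal.toReal_lt_toReal (measure_ne_top lam A) ENNReal.one_ne_top).2 h1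
    simpa using this
  simp only [avg, ind, Finset.sum_range_succ, Finset.sum_range_zero, zero_add] at hx1 hx2
  by_cases c0 : (x, (0 : Z)) ∈ A <;> by_cases c3 : (x, (3 : Z)) ∈ A <;>
    by_cases c2 : (x, (2 : Z)) ∈ A <;>
    by_cases c4 : (x, (2 : Z) * (2 : Z)) ∈ A <;>
    simp [c0, c3, c2, c4] at hx1 hx2 <;> linarith

end Run7.h491.Und
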